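import Pool.Agent.Lib.MP_d439b2_co.X3.H3G.Main
import Pool.Agent.Lib.MP_d439b2_co.X3.H3N.Defs
import Pool.Agent.Lib.MP_d439b2_co.HC.D17

/-!
# MP_d439b2_co, X3/H3G, Final: Theorem Gamma in the form `H3N.S_Gm`
-/

set_option autoImplicit false

namespace Pool.Agent.MPd439b2.X3.H3G

open Pool.Agent.MPd439b2 Pool.Agent.MPd439b2.BU Pool.Agent.MPd439b2.HC

theorem ar_pr : ∀ κ : Bool, ∀ i < 4, ∀ j < i, rc (gs κ) i j = false := by decide

theorem ar_qq : ∀ κ : Bool, ∀ i < 4, ∀ j < i, rc (gs κ) (8 + i) (8 + j) = κ := by decide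

/-- the twelve vertices -/
theorem gam_of {V : Type} {G : SimpleGraph V} {κ : Bool} {p r q : ℕ → V}
    (pp : ∀ i < 4, ∀ j < 4, ¬ G.Adj (p i) (p j)) (rr : ∀ i < 4, ∀ j < 4, ¬ G.Adj (r i) (r j))
    (pr : ∀ i < 4, ∀ j < 4, (G.Adj (p i) (r j) ↔ i = j)) (qi : ∀ i < 4, ∀ j < 4, i ≠ j → q i ≠ q j)
    (qp : ∀ i < 4, ∀ j < 4, G.Adj (q i) (p j)) (qr : ∀ i < 4, ∀ j < 4, ¬ G.Adj (q i) (r j))
    (qq : ∀ i < 4, ∀ j < 4, i ≠ j → (G.Adj (q i) (q j) ↔ κ = true)) :
    Gam G κ (fun i => if i < 4 then p i else if i < 8 then r (i - 4) else q (i - 8)) := by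
  have e0 : ∀ i < 4, (if i < 4 then p i else if i < 8 then r (i - 4) else q (i - 8)) = p i :=
    fun i hi => if_pos hi
  have e1 : ∀ i < 4, (if 4 + i < 4 then p (4 + i) else if 4 + i < 8 then r (4 + i - 4)
      else q (4 + i - 8)) = r i := fun i hi => by
    rw [if_neg (by omega), if_pos (by omega), Nat.add_sub_cancel_left]
  have e2 : ∀ i < 4, (if 8 + i < 4 then p (8 + i) else if 8 + i < 8 then r (8 + i - 4)
      else q (8 + i - 8)) = q i := fun i hi => by
    rw [if_neg (by omega), if_neg (by omega), Nat.add_sub_cancel_left]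
  have sp : ∀ i, i < 12 → (i < 4) ∨ (∃ k < 4, i = 4 + k) ∨ ∃ k < 4, i = 8 + k := by
    intro i hi
    by_cases h4 : i < 4
    · exact Or.inl h4
    · by_cases h8 : i < 8
      · exact Or.inr (Or.inl ⟨i - 4, by omega, by omega⟩)
      · exact Or.inr (Or.inr ⟨i - 8, by omega, by omega⟩)
  have key : ∀ i < 12, ∀ j < i,
      (if i < 4 then p i else if i < 8 then r (i - 4) else q (i - 8)) ≠
        (if j < 4 then p j else if j < 8 then r (j - 4) else q (j - 8)) ∧
      (G.Adj (if i < 4 then p i else if i < 8 then r (i - 4) else q (i - 8))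
        (if j < 4 then p j else if j < 8 then r (j - 4) else q (j - 8)) ↔
          rc (gs κ) i j = true) := by
    intro i hi j hj
    rcases sp i hi with h1 | ⟨k, hk, rfl⟩ | ⟨k, hk, rfl⟩
    · rw [e0 i h1, e0 j (by omega)]
      refine ⟨fun h2 => ?_, iff_of_false (pp i h1 j (by omega)) ?_⟩
      · have h3 := (pr i h1 i h1).2 rfl
        rw [h2] at h3
        have h4 := (pr j (by omega) i h1).1 h3
        omega
      · rw [ar_pr κ i h1 j hj]
        exact Bool.false_ne_true
    · rw [e1 k hk]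
      rcases sp j (by omega) with h1 | ⟨l, hl, rfl⟩ | ⟨l, hl, rfl⟩
      · rw [e0 j h1]
        refine ⟨fun h2 => ?_, ?_⟩
        · have h3 := (pr k hk k hk).2 rfl
          rw [h2] at h3
          exact pp k hk j h1 h3
        · rw [SimpleGraph.adj_comm, pr j h1 k hk, ar_rp κ k hk j h1]
          exact eq_comm
      · rw [e1 l hl]
        refine ⟨fun h2 => ?_, iff_of_false (rr k hk l hl) ?_⟩
        · have h3 := (pr k hk k hk).2 rfl
          rw [h2] at h3
          have h4 := (pr k hk l hl).1 h3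
          omega
        · rw [ar_rr κ k hk l hl]
          exact Bool.false_ne_true
      · omega
    · rw [e2 k hk]
      rcases sp j (by omega) with h1 | ⟨l, hl, rfl⟩ | ⟨l, hl, rfl⟩
      · rw [e0 j h1]
        exact ⟨(qp k hk j h1).ne, iff_of_true (qp k hk j h1) (ar_qp κ k hk j h1)⟩
      · rw [e1 l hl]
        refine ⟨fun h2 => ?_, iff_of_false (qr k hk l hl) ?_⟩
        · obtain ⟨m, hm, hml⟩ : ∃ m < 4, m ≠ l := by
            by_cases h0 : l = 0
            · exact ⟨1, by omega, by omega⟩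
            · exact ⟨0, by omega, by omega⟩
          have h3 := qp k hk m hm
          rw [h2] at h3
          exact hml ((pr m hm l hl).1 h3.symm)
        · rw [ar_rq κ k hk l hl]
          exact Bool.false_ne_true
      · rw [e2 l hl, ar_qq κ k hk l (by omega)]
        exact ⟨qi k hk l hl (by omega), qq k hk l hl (by omega)⟩
  exact ⟨fun _ _ => Set.subset_univ _, fun _ _ => Conn.singleton G _,
    fun i hi j hj => Set.disjoint_singleton.2 (key i hi j hj).1,
    fun i hi j hj => tch_single.trans (key i hi j hj).2⟩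

/-- **Theorem Gamma** -/
theorem gmF : H3N.S_Gm := by
  intro V _ G hG hP hS p r q pp rr pr qi qp qr hq
  obtain ⟨κ, hκ⟩ : ∃ κ : Bool, ∀ i j : Fin 4, i ≠ j → (G.Adj (q i) (q j) ↔ κ = true) := by
    rcases hq with h | h
    · exact ⟨false, fun i j _ => iff_of_false (h i j) Bool.false_ne_true⟩
    · exact ⟨true, fun i j hij => iff_of_true (h i j hij) rfl⟩
  let c : ℕ → Fin 4 := fun i => if h : i < 4 then ⟨i, h⟩ else 0
  have hc : ∀ i (hi : i < 4), c i = ⟨i, hi⟩ := fun i hi => dif_pos hi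
  have hcc : ∀ i < 4, ∀ j < 4, (c i = c j ↔ i = j) := by
    intro i hi j hj
    rw [hc i hi, hc j hj, Fin.mk.injEq]
  refine gamma (gam_of (p := fun i => p (c i)) (r := fun i => r (c i)) (q := fun i => q (c i))
    (fun i _ j _ => pp _ _) (fun i _ j _ => rr _ _) (fun i hi j hj => (pr _ _).trans (hcc i hi j hj))
    (fun i hi j hj hij h1 => hij ((hcc i hi j hj).1 (qi h1))) (fun i _ j _ => qp _ _)
    (fun i _ j _ => qr _ _) (fun i hi j hj hij => hκ _ _ fun h1 => hij ((hcc i hi j hj).1 h1)))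
    (d17.2.2.1 V G Set.univ hG) hP hS

end Pool.Agent.MPd439b2.X3.H3G
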