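import Pool.Agent.Lib.MP_d439b2_co.X3.H3G.Defs

/-!
# MP_d439b2_co, X3/H3G, DT: decision trees for the trace of a set

`DT.chk m q bs ok T M v` checks that the tree `T` shows: every code `t < 2 ^ bs.length` which agrees with `v` on the bits of
`M` is in the list `ok`, or there is a certificate for the pattern `q` (with `m` vertices) in the pattern `bs ++ [t]`.
A certificate is checked only once for all codes with the same bits at the vertices which are used.
-/

set_option autoImplicit false

namespace Pool.Agent.MPd439b2.X3.H3G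

open Pool.Agent.MPd439b2 Pool.Agent.MPd439b2.BU Pool.Agent.MPd439b2.HC

theorem tchL_congr {r r' : ℕ → ℕ → Bool} {l m : List ℕ}
    (h : ∀ i ∈ l, ∀ j ∈ m, Eng.rs r i j = Eng.rs r' i j) : Eng.tchL r l m = Eng.tchL r' l m := by
  induction l with
  | nil => rfl
  | cons a l ih =>
    simp only [Eng.tchL]
    rw [ih fun i hi j hj => h i (List.mem_cons_of_mem a hi) j hj]
    have h1 : (m.any fun j => Eng.rs r a j) = m.any fun j => Eng.rs r' a j := by
      rw [Bool.eq_iff_iff, List.any_eq_true, List.any_eq_true]
      constructor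
      · rintro ⟨j, hj, hr⟩
        exact ⟨j, hj, (h a List.mem_cons_self j hj) ▸ hr⟩
      · rintro ⟨j, hj, hr⟩
        exact ⟨j, hj, (h a List.mem_cons_self j hj).symm ▸ hr⟩
    rw [h1]

theorem connL_congr {r r' : ℕ → ℕ → Bool} {l : List ℕ}
    (h : ∀ i ∈ l, ∀ j ∈ l, Eng.rs r i j = Eng.rs r' i j) : Eng.connL r l = Eng.connL r' l := by
  induction l with
  | nil => rfl
  | cons a l ih =>
    simp only [Eng.connL]
    rw [ih fun i hi j hj => h i (List.mem_cons_of_mem a hi) j (List.mem_cons_of_mem a hj)]
    have h1 : (l.any fun j => Eng.rs r a j) = l.any fun j => Eng.rs r' a j := by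
      rw [Bool.eq_iff_iff, List.any_eq_true, List.any_eq_true]
      constructor
      · rintro ⟨j, hj, hr⟩
        exact ⟨j, hj, (h a List.mem_cons_self j (List.mem_cons_of_mem a hj)) ▸ hr⟩
      · rintro ⟨j, hj, hr⟩
        exact ⟨j, hj, (h a List.mem_cons_self j (List.mem_cons_of_mem a hj)).symm ▸ hr⟩
    rw [h1]

theorem chkG_congr {n m : ℕ} {r r' q : ℕ → ℕ → Bool} {L : List (List ℕ)}
    (h : ∀ i ∈ L.flatten, ∀ j ∈ L.flatten, Eng.rs r i j = Eng.rs r' i j)
    (hc : chkG n m r q L = true) : chkG n m r' q L = true := by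
  simp only [chkG, Bool.and_eq_true, List.all_eq_true, List.mem_range, beq_iff_eq] at hc ⊢
  obtain ⟨⟨⟨h1, h2⟩, h3⟩, h4⟩ := hc
  have h1' : L.length = m := Nat.eq_of_beq_eq_true h1
  have hm : ∀ l ∈ L, ∀ i ∈ l, i ∈ L.flatten := fun l hl i hi => List.mem_flatten.2 ⟨l, hl, hi⟩
  refine ⟨⟨⟨h1, h2⟩, fun l hl => ?_⟩, fun i hi j hj => ?_⟩
  · rw [← h3 l hl]
    exact (connL_congr fun i hi j hj => h i (hm l hl i hi) j (hm l hl j hj)).symm
  · rw [← h4 i hi j hj]
    exact (tchL_congr fun a ha b hb => h a (hm _ (getD_mem (by omega)) a ha) b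
      (hm _ (getD_mem (by omega)) b hb)).symm

/-- decision trees: `o` the code is allowed, `l` a certificate, `n` a question -/
inductive DT : Type
  | o : DT
  | l : List (List ℕ) → DT
  | n : ℕ → DT → DT → DT

namespace DT

/-- see the head of the file -/
def chk (m : ℕ) (q : ℕ → ℕ → Bool) (bs ok : List ℕ) : DT → ℕ → ℕ → Bool
  | o, M, v => Nat.beq M (2 ^ bs.length - 1) && ok.elem v
  | l L, M, v => !v.testBit bs.length && (L.flatten.all fun x => Nat.beq x bs.length || M.testBit x) &&
      chkG (bs.length + 1) m (rc (bs ++ [v])) q L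
  | n b lo hi, M, v => Nat.blt b bs.length && !v.testBit b &&
      (lo.chk m q bs ok (M ||| (1 <<< b)) v && hi.chk m q bs ok (M ||| (1 <<< b)) (v ||| (1 <<< b)))

theorem tb_or (a b j : ℕ) : (a ||| (1 <<< b)).testBit j = (a.testBit j || decide (j = b)) := by
  rw [Nat.testBit_or, Nat.testBit_shiftLeft]
  rcases lt_trichotomy j b with h | h | h
  · rw [decide_eq_false (by omega : ¬ j ≥ b), decide_eq_false (by omega : ¬ j = b)]
    simp
  · subst h
    simp
  · rw [decide_eq_false (by omega : ¬ j = b)]
    have h1 : (1 : ℕ).testBit (j - b) = false := by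
      refine Nat.testBit_lt_two_pow ?_
      have h3 : 2 ^ 1 ≤ 2 ^ (j - b) := Nat.pow_le_pow_right (by omega) (by omega)
      omega
    rw [h1]
    simp

theorem sound {m : ℕ} {q : ℕ → ℕ → Bool} {bs ok : List ℕ} {t : ℕ} (ht : t < 2 ^ bs.length) :
    ∀ (T : DT) (M v : ℕ), T.chk m q bs ok M v = true → v < 2 ^ bs.length →
      (∀ j, M.testBit j = true → t.testBit j = v.testBit j) →
        ok.elem t = true ∨ ∃ L, chkG (bs.length + 1) m (rc (bs ++ [t])) q L = true := by
  intro T
  induction T with
  | o =>
    intro M v h hv hM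
    simp only [chk, Bool.and_eq_true] at h
    left
    have h1 : t = v := by
      refine Nat.eq_of_testBit_eq fun j => ?_
      by_cases hj : j < bs.length
      · refine hM j ?_
        rw [Nat.eq_of_beq_eq_true h.1, Nat.testBit_two_pow_sub_one, decide_eq_true hj]
      · have h2 : 2 ^ bs.length ≤ 2 ^ j := Nat.pow_le_pow_right (by omega) (by omega)
        rw [Nat.testBit_lt_two_pow (ht.trans_le h2), Nat.testBit_lt_two_pow (hv.trans_le h2)]
    rw [h1]
    exact h.2
  | l L =>
    intro M v h hv hM
    simp only [chk, Bool.and_eq_true, List.all_eq_true, Bool.or_eq_true] at h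
    obtain ⟨⟨-, h2⟩, h3⟩ := h
    right
    refine ⟨L, chkG_congr (fun i hi j hj => ?_) h3⟩
    have h4 : ∀ j ∈ L.flatten, j < bs.length → v.testBit j = t.testBit j := by
      intro j hj hj'
      rcases h2 j hj with h5 | h5
      · have := Nat.eq_of_beq_eq_true h5
        omega
      · exact (hM j h5).symm
    have h5 : ∀ i j, i ∈ L.flatten → j ∈ L.flatten → j < i →
        rc (bs ++ [v]) i j = rc (bs ++ [t]) i j := by
      intro i j hi hj hij
      simp only [rc]
      by_cases h6 : i < bs.length
      · rw [List.getD_append _ _ _ _ h6, List.getD_append _ _ _ _ h6]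
      · rw [List.getD_append_right _ _ _ _ (by omega), List.getD_append_right _ _ _ _ (by omega)]
        by_cases h7 : i = bs.length
        · subst h7
          rw [Nat.sub_self]
          exact h4 j hj hij
        · rw [List.getD_eq_default _ _ (by simp only [List.length_cons, List.length_nil]; omega),
            List.getD_eq_default _ _ (by simp only [List.length_cons, List.length_nil]; omega)]
    unfold Eng.rs
    rcases lt_trichotomy i j with h6 | h6 | h6
    · have h7 : Nat.blt j i = false := by
        rw [Bool.eq_false_iff]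
        intro h8
        rw [Nat.blt_eq] at h8
        omega
      have h8 : Nat.blt i j = true := by rw [Nat.blt_eq]; exact h6
      rw [h7, h8, cond_false, cond_true, cond_false, cond_true]
      exact h5 j i hj hi h6
    · subst h6
      have h7 : Nat.blt i i = false := by
        rw [Bool.eq_false_iff]
        intro h8
        rw [Nat.blt_eq] at h8
        omega
      rw [h7]
      rfl
    · rw [h5 i j hi hj h6]
      have h7 : Nat.blt j i = true := by rw [Nat.blt_eq]; exact h6
      rw [h7]
      rfl
  | n b lo hi ih1 ih2 =>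
    intro M v h hv hM
    simp only [chk, Bool.and_eq_true, Nat.blt_eq, Bool.not_eq_true'] at h
    obtain ⟨⟨hb, hvb⟩, h1, h2⟩ := h
    cases htb : t.testBit b with
    | false =>
      refine ih1 _ _ h1 hv fun j hj => ?_
      rw [tb_or, Bool.or_eq_true] at hj
      rcases hj with hj | hj
      · exact hM j hj
      · rw [of_decide_eq_true hj, htb, hvb]
    | true =>
      refine ih2 _ _ h2 (Nat.or_lt_two_pow hv ?_) fun j hj => ?_
      · rw [Nat.shiftLeft_eq, Nat.one_mul]
        exact Nat.pow_lt_pow_right (by omega) hb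
      · rw [tb_or, Bool.or_eq_true] at hj
        rw [tb_or]
        by_cases hjb : j = b
        · rw [hjb, htb]
          simp
        · rw [decide_eq_false hjb, Bool.or_false]
          rcases hj with hj | hj
          · exact hM j hj
          · exact absurd (of_decide_eq_true hj) hjb

/-- **the trace is allowed** -/
theorem use {V : Type} {G : SimpleGraph V} {m n : ℕ} {q : ℕ → ℕ → Bool} {bs ok : List ℕ} {t : ℕ}
    {S : ℕ → Set V} {X : Set V} (T : DT) (hT : T.chk m q bs ok 0 0 = true) (hG : SPF G X m q)
    (ht : t < 2 ^ bs.length) (hn : n = bs.length + 1) (h : SP G X n S (rc (bs ++ [t]))) : t ∈ ok := by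
  subst hn
  rcases sound ht T 0 0 hT (Nat.two_pow_pos _) (fun j hj => by simp at hj) with h1 | ⟨L, h1⟩
  · exact List.elem_iff.1 h1
  · exact absurd (chkG_sp h h1) (hG _)

end DT

end Pool.Agent.MPd439b2.X3.H3G
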