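import Pool.Agent.Lib.MP_d439b2_co.HC.EngC
import Pool.Agent.Lib.MP_d439b2_co.H3.Spec

/-!
# MP_d439b2_co, X3/H3G: Theorem Gamma (notes 2868, 2892 of helper70, refereed by helper12), definitions

`Gam G κ f`: twelve vertices `p i = f i`, `r i = f (4 + i)`, `q i = f (8 + i)`, `i < 4`; the `p i` are stable, the
`r i` are stable, `p i ~ r j` iff `i = j`, all `q j` are complete to the `p i` and anticomplete to the `r i`; the
`q j` are a clique (`κ = true`) or stable (`κ = false`).

Theorem Gamma: a finite graph without `K3:0,01,12`, without homogeneous sets and without split contains no such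
vertices.
-/

set_option autoImplicit false

namespace Pool.Agent.MPd439b2.X3.H3G

open Pool.Agent.MPd439b2 Pool.Agent.MPd439b2.BU Pool.Agent.MPd439b2.HC

variable {V : Type} {G : SimpleGraph V}

/-- the codes of the twelve vertices -/
def gs (κ : Bool) : List ℕ :=
  [0, 0, 0, 0, 1, 2, 4, 8] ++ (bif κ then [15, 271, 783, 1807] else [15, 15, 15, 15])

theorem gs_len (κ : Bool) : (gs κ).length = 12 := by
  cases κ <;> rfl

/-- the twelve vertices -/
def Gam (G : SimpleGraph V) (κ : Bool) (f : ℕ → V) : Prop :=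
  SP G Set.univ 12 (fun i => {f i}) (rc (gs κ))

/-- a connected set without the twelve vertices, with the trace `t` -/
structure Ob (G : SimpleGraph V) (f : ℕ → V) (K : Set V) (t : ℕ) : Prop where
  conn : Conn G K
  out : ∀ j < 12, f j ∉ K
  tr : Tr G 12 (fun i => {f i}) K t

/-- one more bit -/
def cat (n t : ℕ) (b : Bool) : ℕ := t ||| (b.toNat <<< n)

theorem cat_bit {n t : ℕ} (b : Bool) (ht : t < 2 ^ n) (j : ℕ) :
    (cat n t b).testBit j = (t.testBit j || (decide (j = n) && b)) := by
  unfold cat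
  rw [Nat.testBit_or, Nat.testBit_shiftLeft]
  rcases lt_trichotomy j n with h | h | h
  · rw [decide_eq_false (by omega : ¬ j ≥ n), decide_eq_false (by omega : ¬ j = n)]
    simp
  · subst h
    rw [Nat.testBit_lt_two_pow ht]
    cases b <;> simp
  · rw [decide_eq_false (by omega : ¬ j = n)]
    have h1 : (b.toNat).testBit (j - n) = false := by
      refine Nat.testBit_lt_two_pow ?_
      have h2 : b.toNat < 2 := by cases b <;> decide
      have h3 : 2 ^ 1 ≤ 2 ^ (j - n) := Nat.pow_le_pow_right (by omega) (by omega)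
      omega
    rw [h1]
    simp

theorem cat_lt {n t : ℕ} (b : Bool) (ht : t < 2 ^ n) : cat n t b < 2 ^ (n + 1) := by
  unfold cat
  refine Nat.or_lt_two_pow (ht.trans (Nat.pow_lt_pow_right (by omega) (by omega))) ?_
  rw [Nat.shiftLeft_eq, pow_succ, Nat.mul_comm]
  refine Nat.mul_lt_mul_of_pos_left ?_ (Nat.two_pow_pos n)
  cases b <;> decide

/-- one more set -/
theorem snocT {X : Set V} {n : ℕ} {S : ℕ → Set V} {ts : List ℕ} {K : Set V} {t : ℕ}
    (h : SP G X n S (rc ts)) (hn : ts.length = n) (hK : Conn G K) (hKX : K ⊆ X)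
    (hd : ∀ j < n, Disjoint K (S j)) (ht : Tr G n S K t) :
    SP G X (n + 1) (fun i => if i < n then S i else K) (rc (ts ++ [t])) := by
  subst hn
  refine SP.snoc h (fun i hi j _ => ?_) (fun j _ => ?_) hK hKX hd ht
  · simp only [rc]
    rw [List.getD_append _ _ _ _ hi]
  · simp only [rc]
    rw [List.getD_append_right _ _ _ _ le_rfl]
    simp

/-- the trace on one more set -/
theorem tr_snoc {n : ℕ} {S : ℕ → Set V} {K L : Set V} {t : ℕ} {b : Bool} (ht : Tr G n S L t)
    (hb : Tch G L K ↔ b = true) : Tr G (n + 1) (fun i => if i < n then S i else K) L (cat n t b) := by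
  refine ⟨cat_lt b ht.1, fun j hj => ?_⟩
  rw [cat_bit b ht.1]
  by_cases h : j < n
  · simp only [if_pos h]
    rw [ht.2 j h, decide_eq_false (by omega : ¬ j = n)]
    simp
  · have h1 : j = n := by omega
    subst h1
    simp only [lt_irrefl, if_false]
    rw [hb, Nat.testBit_lt_two_pow ht.1]
    simp

/-- one of the certificates in `cs` works -/
def kb (n : ℕ) (cs : List (List (List ℕ))) (ts : List ℕ) : Bool := cs.any fun L => chkG n 6 (rc ts) r3 L

theorem kl {n : ℕ} {S : ℕ → Set V} {ts : List ℕ} (hG : SPF G Set.univ 6 r3)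
    (h : SP G Set.univ n S (rc ts)) {cs : List (List (List ℕ))} (hc : kb n cs ts = true) : False := by
  rw [kb, List.any_eq_true] at hc
  obtain ⟨L, -, hL⟩ := hc
  exact hG _ (chkG_sp h hL)

variable {κ : Bool} {f : ℕ → V}

theorem Gam.sp1 (h : Gam G κ f) {K : Set V} {s : ℕ} (hK : Ob G f K s) :
    SP G Set.univ 13 (fun i => if i < 12 then {f i} else K) (rc (gs κ ++ [s])) :=
  snocT h (gs_len κ) hK.conn (Set.subset_univ _)
    (fun j hj => Set.disjoint_singleton_right.2 (hK.out j hj)) hK.tr

theorem Gam.sp2 (h : Gam G κ f) {K L : Set V} {s t : ℕ} {b : Bool} (hK : Ob G f K s)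
    (hL : Ob G f L t) (hd : Disjoint L K) (hb : Tch G L K ↔ b = true) :
    SP G Set.univ 14 (fun i => if i < 13 then (if i < 12 then {f i} else K) else L)
      (rc (gs κ ++ [s] ++ [cat 12 t b])) := by
  refine snocT (h.sp1 hK) (by rw [List.length_append, gs_len]; rfl) hL.conn (Set.subset_univ _)
    (fun j hj => ?_) (tr_snoc hL.tr hb)
  by_cases h1 : j < 12
  · simp only [if_pos h1]
    exact Set.disjoint_singleton_right.2 (hL.out j h1)
  · simp only [if_neg h1]
    exact hd

theorem Gam.sp3 (h : Gam G κ f) {K L M : Set V} {s t u : ℕ} {b c d : Bool} (hK : Ob G f K s)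
    (hL : Ob G f L t) (hM : Ob G f M u) (hLK : Disjoint L K) (hMK : Disjoint M K)
    (hML : Disjoint M L) (hb : Tch G L K ↔ b = true) (hc : Tch G M K ↔ c = true)
    (hd : Tch G M L ↔ d = true) :
    SP G Set.univ 15 (fun i => if i < 14 then (if i < 13 then (if i < 12 then {f i} else K) else L)
      else M) (rc (gs κ ++ [s] ++ [cat 12 t b] ++ [cat 13 (cat 12 u c) d])) := by
  refine snocT (h.sp2 hK hL hLK hb)
    (by rw [List.length_append, List.length_append, gs_len]; rfl) hM.conn (Set.subset_univ _)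
    (fun j hj => ?_) (tr_snoc (tr_snoc hM.tr hc) hd)
  by_cases h1 : j < 12
  · simp only [if_pos h1, if_pos (show j < 13 by omega)]
    exact Set.disjoint_singleton_right.2 (hM.out j h1)
  · by_cases h2 : j < 13
    · simp only [if_neg h1, if_pos h2]
      exact hMK
    · simp only [if_neg h2]
      exact hML

theorem Gam.sp4 (h : Gam G κ f) {K L M N : Set V} {s t u v : ℕ} {b c d b' c' d' : Bool}
    (hK : Ob G f K s) (hL : Ob G f L t) (hM : Ob G f M u) (hN : Ob G f N v) (hLK : Disjoint L K)
    (hMK : Disjoint M K) (hML : Disjoint M L) (hNK : Disjoint N K) (hNL : Disjoint N L)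
    (hNM : Disjoint N M) (hb : Tch G L K ↔ b = true) (hc : Tch G M K ↔ c = true)
    (hd : Tch G M L ↔ d = true) (hb' : Tch G N K ↔ b' = true) (hc' : Tch G N L ↔ c' = true)
    (hd' : Tch G N M ↔ d' = true) :
    SP G Set.univ 16 (fun i => if i < 15 then (if i < 14 then (if i < 13 then
        (if i < 12 then {f i} else K) else L) else M) else N)
      (rc (gs κ ++ [s] ++ [cat 12 t b] ++ [cat 13 (cat 12 u c) d] ++
        [cat 14 (cat 13 (cat 12 v b') c') d'])) := by
  refine snocT (h.sp3 hK hL hM hLK hMK hML hb hc hd)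
    (by rw [List.length_append, List.length_append, List.length_append, gs_len]; rfl) hN.conn
    (Set.subset_univ _) (fun j hj => ?_) (tr_snoc (tr_snoc (tr_snoc hN.tr hb') hc') hd')
  by_cases h1 : j < 12
  · simp only [if_pos h1, if_pos (show j < 13 by omega), if_pos (show j < 14 by omega)]
    exact Set.disjoint_singleton_right.2 (hN.out j h1)
  · by_cases h2 : j < 13
    · simp only [if_neg h1, if_pos h2, if_pos (show j < 14 by omega)]
      exact hNK
    · by_cases h3 : j < 14
      · simp only [if_neg h2, if_pos h3]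
        exact hNL
      · simp only [if_neg h3]
        exact hNM

/-! ### the types -/

/-- type `A` without neighbour `p` -/
def lA0 : List ℕ := [3840]

/-- type `A` with a neighbour `p`, not `AB` -/
def lA1 : List ℕ := [3841, 3842, 3843, 3844, 3845, 3846, 3847, 3848, 3849, 3850, 3851, 3852, 3853, 3854]

/-- type `B`, not `AB` -/
def lB : List ℕ := [15, 271, 527, 783, 1039, 1295, 1551, 1807, 2063, 2319, 2575, 2831, 3087, 3343, 3599]

/-- type `C` -/
def lC (κ : Bool) : List ℕ :=
  bif κ then [256, 512, 768, 1024, 1280, 1536, 1792, 2048, 2304, 2560, 2816, 3072, 3328, 3584]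
  else [256, 512, 1024, 2048]

/-- type `E` -/
def lE : List ℕ := [1, 2, 4, 8, 16, 32, 64, 128, 17, 34, 68, 136]

/-- types `C`, `E`, `O` -/
def lW (κ : Bool) : List ℕ := 0 :: (lC κ ++ lE)

/-- types `A`, `B`, `C`, `E` -/
def lN (κ : Bool) : List ℕ := lA0 ++ lA1 ++ [3855] ++ lB ++ lC κ ++ lE

/-- all types -/
def ty (κ : Bool) : List ℕ := 4095 :: 0 :: lN κ

end Pool.Agent.MPd439b2.X3.H3G
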