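import Pool.Agent.Lib.MP_d439b2_co.X3.H3G.Sem

/-!
# MP_d439b2_co, X3/H3G, Main: Theorem Gamma
-/

set_option autoImplicit false

namespace Pool.Agent.MPd439b2.X3.H3G

open Pool.Agent.MPd439b2 Pool.Agent.MPd439b2.BU Pool.Agent.MPd439b2.HC

variable {V : Type} {G : SimpleGraph V} {κ : Bool} {f : ℕ → V}

/-! ### arithmetic of the codes -/

theorem ar_qp : ∀ κ : Bool, ∀ i < 4, ∀ j < 4, rc (gs κ) (8 + i) j = true := by decide

theorem ar_rp : ∀ κ : Bool, ∀ i < 4, ∀ j < 4, (rc (gs κ) (4 + i) j = true ↔ i = j) := by decide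

theorem ar_rq : ∀ κ : Bool, ∀ i < 4, ∀ j < 4, rc (gs κ) (8 + i) (4 + j) = false := by decide

theorem ar_rr : ∀ κ : Bool, ∀ i < 4, ∀ j < 4, rc (gs κ) (4 + i) (4 + j) = false := by decide

theorem ar_ty : ∀ κ : Bool, ∀ s ∈ ty κ, s ∈ lW κ ∨ (∀ j < 4, s.testBit (8 + j) = true) ∨
    ∀ j < 4, s.testBit j = true := by decide

theorem ar_W1 : ∀ κ : Bool, ∀ s ∈ lW κ, ¬ ∀ j < 4, s.testBit (8 + j) = true := by decide

theorem ar_W2 : ∀ κ : Bool, ∀ s ∈ lW κ, ¬ ∀ j < 4, s.testBit j = true := by decide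

theorem ar_WA : ∀ κ : Bool, ∀ s ∈ lW κ, s ∉ lA0 ++ lA1 ∧ s ≠ 3855 ∧ s ∉ lB := by decide

theorem ar_AB : ∀ s ∈ lA0 ++ lA1, s ∉ lB ∧ s ≠ 3855 := by decide

theorem ar_A8 : ∀ s ∈ lA0 ++ lA1, ∀ j < 4, s.testBit (8 + j) = true := by decide

theorem ar_B0 : ∀ s ∈ lB, (∀ j < 4, s.testBit j = true) ∧ s ≠ 3855 ∧ s ≠ 3840 := by decide

theorem ar_r : ∀ s ∈ 3855 :: (lA0 ++ lA1 ++ lB), ∀ j < 4, s.testBit (4 + j) = false := by decide

theorem ar_C : ∀ κ : Bool, ∀ s ∈ lC κ, ∀ j < 8, s.testBit j = false := by decide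

theorem ar_E : ∀ s ∈ lE, ∀ j < 4, s.testBit (8 + j) = false := by decide

theorem ar_N : ∀ κ : Bool, ∀ s ∈ ty κ, s = 4095 ∨ s = 0 ∨ s ∈ lN κ := by
  intro κ s hs
  rcases List.mem_cons.1 hs with h | h
  · exact Or.inl h
  · rcases List.mem_cons.1 h with h | h
    · exact Or.inr (Or.inl h)
    · exact Or.inr (Or.inr h)

theorem ar_D : ∀ κ : Bool, ∀ s ∈ 0 :: lN κ, s ∈ lA0 ++ lA1 ∨ s = 3855 ∨ s ∈ lB ∨ s ∈ lW κ := by
  decide

/-- **Theorem Gamma** -/
theorem gamma [Finite V] (h : Gam G κ f) (hG : SPF G Set.univ 6 r3) (hP : H3.Prm G)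
    (hS : H3.SPo G Set.univ) : False := by
  classical
  have fne : ∀ i < 12, ∀ j < 12, i ≠ j → f i ≠ f j := by
    intro i hi j hj hij
    rcases lt_or_gt_of_ne hij with h1 | h1
    · exact (Set.disjoint_singleton.1 (h.dis j hj i h1)).symm
    · exact Set.disjoint_singleton.1 (h.dis i hi j h1)
  have fad : ∀ i < 12, ∀ j < i, (G.Adj (f i) (f j) ↔ rc (gs κ) i j = true) := fun i hi j hj =>
    tch_single.symm.trans (h.tch i hi j hj)
  have qp : ∀ i < 4, ∀ j < 4, G.Adj (f (8 + i)) (f j) := fun i hi j hj =>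
    (fad (8 + i) (by omega) j (by omega)).2 (ar_qp κ i hi j hj)
  have rp : ∀ i < 4, ∀ j < 4, (G.Adj (f (4 + i)) (f j) ↔ i = j) := fun i hi j hj =>
    (fad (4 + i) (by omega) j (by omega)).trans (ar_rp κ i hi j hj)
  have rq : ∀ i < 4, ∀ j < 4, ¬ G.Adj (f (8 + i)) (f (4 + j)) := fun i hi j hj h1 => by
    have h2 := (fad (8 + i) (by omega) (4 + j) (by omega)).1 h1
    rw [ar_rq κ i hi j hj] at h2
    exact Bool.false_ne_true h2
  -- the codes
  let Γ : Set V := {v | ∃ j < 12, v = f j}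
  have hΓ : ∀ j < 12, f j ∈ Γ := fun j hj => ⟨j, hj, rfl⟩
  obtain ⟨c, hc⟩ : ∃ c : V → ℕ, ∀ v, v ∉ Γ → Ob G f {v} (c v) := by
    have h1 : ∀ v, ∃ t, v ∉ Γ → Ob G f {v} t := by
      intro v
      obtain ⟨t, ht⟩ := exists_tr G 12 (fun i => {f i}) {v}
      exact ⟨t, fun hv => ⟨Conn.singleton G v, fun j hj h2 =>
        hv ⟨j, hj, (Set.mem_singleton_iff.1 h2).symm⟩, ht⟩⟩
    choose c hc using h1
    exact ⟨c, hc⟩
  have cb : ∀ v, v ∉ Γ → ∀ j < 12, (G.Adj v (f j) ↔ (c v).testBit j = true) := fun v hv j hj =>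
    tch_single.symm.trans ((hc v hv).tr.2 j hj)
  have hty : ∀ v, v ∉ Γ → c v ∈ ty κ := fun v hv => h.ty hG (hc v hv)
  -- STEP 1
  have noF : ∀ v, v ∉ Γ → c v ≠ 4095 := by
    obtain ⟨M, hM1, hM2, hM3, hM4⟩ := exists_comp G (A := {v | ¬ (v ∉ Γ ∧ c v = 4095)}) (v := f 0)
      (fun h1 => h1.1 (hΓ 0 (by omega)))
    have hMadj : ∀ x ∈ M, ∀ y, ¬ (y ∉ Γ ∧ c y = 4095) → G.Adj x y → y ∈ M := by
      intro x hx y hy hxy
      by_contra hyM
      exact hM4 y hy ⟨hyM, x, hx, hxy⟩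
    have hg : ∀ j < 12, ¬ (f j ∉ Γ ∧ c (f j) = 4095) := fun j hj h1 => h1.1 (hΓ j hj)
    have Mq : ∀ i < 4, f (8 + i) ∈ M := fun i hi =>
      hMadj _ hM2 _ (hg _ (by omega)) (qp i hi 0 (by omega)).symm
    have Mp : ∀ i < 4, f i ∈ M := fun i hi =>
      hMadj _ (Mq 0 (by omega)) _ (hg _ (by omega)) (qp 0 (by omega) i hi)
    have Mr : ∀ i < 4, f (4 + i) ∈ M := fun i hi =>
      hMadj _ (Mp i hi) _ (hg _ (by omega)) ((rp i hi i hi).2 rfl).symm
    have cmp : ∀ e, e ∉ Γ → c e = 4095 → ∀ k ∈ M, G.Adj e k := by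
      intro e he hce k hk
      have heM : e ∉ M := fun h1 => hM1 h1 ⟨he, hce⟩
      have heOb : Ob G f {e} 4095 := hce ▸ hc e he
      by_contra hek
      have hkΓ : k ∉ Γ := by
        rintro ⟨j, hj, rfl⟩
        refine hek ((cb e he j hj).2 ?_)
        rw [hce]
        interval_cases j <;> decide
      have hne : e ≠ k := fun h1 => heM (h1 ▸ hk)
      have adjN : ∀ x ∈ M, x ∉ Γ → c x ∈ lN κ → G.Adj e x := by
        intro x hx hxΓ hcx
        have hxe : e ≠ x := fun h1 => heM (h1 ▸ hx)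
        exact tch_single.1 (h.pF hG (hc x hxΓ) hcx heOb (Set.disjoint_singleton.2 hxe))
      have hck : c k = 0 := by
        rcases ar_N κ _ (hty k hkΓ) with h1 | h1 | h1
        · exact absurd ⟨hkΓ, h1⟩ (hM1 hk)
        · exact h1
        · exact absurd (adjN k hk hkΓ h1) hek
      -- the component of `k` in the vertices of type `O`
      obtain ⟨K, hK1, hK2, hK3, hK4⟩ := exists_comp G (A := {v | v ∈ M ∧ v ∉ Γ ∧ c v = 0}) (v := k)
        ⟨hk, hkΓ, hck⟩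
      have hKM : K ⊆ M := fun v hv => (hK1 hv).1
      obtain ⟨b, hb, a, ha, hba⟩ := hM3.2 K hKM ⟨k, hK2⟩ (fun h1 => by
        have h2 : f 0 ∈ K := h1 ▸ hM2
        exact (hK1 h2).2.1 (hΓ 0 (by omega)))
      have haΓ : a ∉ Γ := by
        rintro ⟨j, hj, rfl⟩
        have h1 := (cb b (hK1 hb).2.1 j hj).1 hba
        rw [(hK1 hb).2.2, Nat.zero_testBit] at h1
        exact Bool.false_ne_true h1
      have hca0 : c a ≠ 0 := fun h1 => hK4 a ⟨ha.1, haΓ, h1⟩ ⟨ha.2, b, hb, hba⟩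
      have hcaN : c a ∈ lN κ := by
        rcases ar_N κ _ (hty a haΓ) with h1 | h1 | h1
        · exact absurd ⟨haΓ, h1⟩ (hM1 ha.1)
        · exact absurd h1 hca0
        · exact h1
      -- the component of `a` in `(K ∪ {a}) \ {k}`
      have hak : a ≠ k := fun h1 => ha.2 (h1 ▸ hK2)
      have hKa : Conn G (insert a K) := hK3.insert ⟨b, hb, hba⟩
      obtain ⟨T, hT1, hT2, hT3, hT4⟩ := exists_comp G (A := insert a K \ {k}) (v := a)
        ⟨Set.mem_insert _ _, hak⟩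
      have hkT : k ∉ T := fun h1 => (hT1 h1).2 rfl
      have hTk : Tch G {k} T := by
        obtain ⟨x, hx, y, hy, hxy⟩ := hKa.2 T (fun v hv => (hT1 hv).1) ⟨a, hT2⟩
          (fun h1 => hkT (h1 ▸ Set.mem_insert_of_mem _ hK2))
        have hyk : y = k := by
          by_contra h1
          exact hT4 y ⟨hy.1, h1⟩ ⟨hy.2, x, hx, hxy⟩
        exact ⟨k, rfl, x, hx, hyk ▸ hxy.symm⟩
      have hTmem : ∀ x ∈ T, x = a ∨ x ∈ K := fun x hx => (hT1 hx).1
      have hTM : T ⊆ M := by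
        intro x hx
        rcases hTmem x hx with h1 | h1
        · exact h1 ▸ ha.1
        · exact hKM h1
      have hTOb : Ob G f T (c a) := by
        refine ⟨hT3, fun j hj h1 => ?_, (hc a haΓ).tr.1, fun j hj => ?_⟩
        · rcases hTmem _ h1 with h2 | h2
          · exact haΓ (h2 ▸ hΓ j hj)
          · exact (hK1 h2).2.1 (hΓ j hj)
        · constructor
          · rintro ⟨x, hx, y, hy, hxy⟩
            rw [Set.mem_singleton_iff] at hy
            subst hy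
            rcases hTmem x hx with h2 | h2
            · rw [h2] at hxy
              exact (cb a haΓ j hj).1 hxy
            · have h3 := (cb x (hK1 h2).2.1 j hj).1 hxy
              rw [(hK1 h2).2.2, Nat.zero_testBit] at h3
              exact absurd h3 Bool.false_ne_true
          · intro h1
            exact ⟨a, hT2, f j, rfl, (cb a haΓ j hj).2 h1⟩
      have heT : e ∉ T := fun h1 => heM (hTM h1)
      have hcoc := h.pS hG hTOb hcaN heOb (hck ▸ hc k hkΓ) (Set.disjoint_singleton_left.2 heT)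
        (Set.disjoint_singleton_left.2 hkT) (Set.disjoint_singleton.2 hne.symm)
        ⟨e, rfl, a, hT2, adjN a ha.1 haΓ hcaN⟩ hTk
      exact hek (tch_single.1 hcoc).symm
    have hMu : M = Set.univ := by
      by_contra hMu
      refine fne 0 (by omega) 1 (by omega) (by omega) (hP M hMu ?_ (Mp 0 (by omega)) (Mp 1 (by omega)))
      intro v _ hv
      by_cases h1 : v ∉ Γ ∧ c v = 4095
      · exact Or.inl (cmp v h1.1 h1.2)
      · right
        intro m hm hvm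
        exact hv (hMadj m hm v h1 hvm.symm)
    intro v hv hcv
    exact hM1 (hMu ▸ Set.mem_univ v : v ∈ M) ⟨hv, hcv⟩
  have ht0 : ∀ v, v ∉ Γ → c v ∈ 0 :: lN κ := by
    intro v hv
    rcases ar_N κ _ (hty v hv) with h1 | h1 | h1
    · exact absurd h1 (noF v hv)
    · rw [h1]
      exact List.mem_cons_self
    · exact List.mem_cons_of_mem _ h1
  -- STEP 2
  let AB1 : Set V := {v | v ∉ Γ ∧ c v = 3855 ∧ ∃ w, w ∉ Γ ∧ c w = 3840 ∧ ¬ G.Adj v w}
  let X0 : Set V := {v | (∃ i < 4, v = f i) ∨ (v ∉ Γ ∧ c v ∈ lA0 ++ lA1) ∨ v ∈ AB1}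
  let Y0 : Set V := {v | (∃ i < 4, v = f (8 + i)) ∨ (v ∉ Γ ∧ c v ∈ lB) ∨
    (v ∉ Γ ∧ c v = 3855 ∧ v ∉ AB1)}
  have sing : ∀ {v w : V}, v ≠ w → Disjoint ({v} : Set V) {w} := fun h1 => Set.disjoint_singleton.2 h1
  have ntc : ∀ {v w : V}, ¬ G.Adj v w → ¬ Tch G {v} {w} := fun h1 h2 => h1 (tch_single.1 h2)
  have hXY : ∀ x ∈ X0, ∀ y ∈ Y0, G.Adj x y := by
    rintro x (⟨i, hi, rfl⟩ | ⟨hx, hcx⟩ | ⟨hx, hcx, w, hw, hcw, hxw⟩) y
      (⟨j, hj, rfl⟩ | ⟨hy, hcy⟩ | ⟨hy, hcy, hy1⟩)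
    · exact (qp j hj i hi).symm
    · exact ((cb y hy i (by omega)).2 ((ar_B0 _ hcy).1 i hi)).symm
    · refine ((cb y hy i (by omega)).2 ?_).symm
      rw [hcy]
      interval_cases i <;> decide
    · exact (cb x hx _ (by omega)).2 (ar_A8 _ hcx j hj)
    · have hne : y ≠ x := fun h1 => (ar_AB _ hcx).1 (h1 ▸ hcy)
      exact (tch_single.1 (h.pAB hG (hc x hx) hcx (hc y hy) hcy (sing hne))).symm
    · rcases List.mem_append.1 hcx with h1 | h1
      · by_contra hxy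
        exact hy1 ⟨hy, hcy, x, hx, List.mem_singleton.1 h1, fun h2 => hxy h2.symm⟩
      · have hne : y ≠ x := fun h2 => (ar_AB _ hcx).2 (h2 ▸ hcy)
        exact (tch_single.1 (h.pAA hG (hc x hx) h1 (hcy ▸ hc y hy) (sing hne))).symm
    · refine (cb x hx _ (by omega)).2 ?_
      rw [hcx]
      interval_cases j <;> decide
    · have h1 : y ≠ w := fun h2 => (ar_B0 _ hcy).2.2 (h2 ▸ hcw)
      have h2 : y ≠ x := fun h3 => (ar_B0 _ hcy).2.1 (h3 ▸ hcx)
      have h3 : x ≠ w := fun h4 => by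
        rw [h4, hcw] at hcx
        exact absurd hcx (by decide)
      exact (tch_single.1 (h.pb1 hG (hcw ▸ hc w hw) (hcx ▸ hc x hx) (hc y hy) hcy (sing h3) (sing h1)
        (sing h2) (ntc hxw))).symm
    · have hyw : G.Adj y w := by
        by_contra h1
        exact hy1 ⟨hy, hcy, w, hw, hcw, h1⟩
      have h2 : y ≠ x := fun h3 => hy1 (h3 ▸ ⟨hx, hcx, w, hw, hcw, hxw⟩)
      have h3 : x ≠ w := fun h4 => by
        rw [h4, hcw] at hcx
        exact absurd hcx (by decide)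
      exact (tch_single.1 (h.pb2 hG (hcw ▸ hc w hw) (hcx ▸ hc x hx) (hcy ▸ hc y hy) (sing h3)
        (sing hyw.ne) (sing h2) (ntc hxw) (tch_single.2 hyw))).symm
  -- the core
  have core : ¬ ∃ S, Conn G S ∧ S ⊆ {v | v ∉ Γ ∧ c v ∈ lW κ} ∧
      Tch G S (X0 ∪ {v | ∃ i < 4, v = f (4 + i)}) ∧ Tch G S Y0 := by
    intro hex
    obtain ⟨S, h1, h2, h3, h4, a, ha, b, hb, ua, ub⟩ := minC hex
    have hSΓ : ∀ v ∈ S, v ∉ Γ := fun v hv => (h2 hv).1
    obtain ⟨s, hs⟩ := exists_tr G 12 (fun i => {f i}) S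
    have hOb : Ob G f S s := ⟨h1, fun j hj h5 => hSΓ _ h5 (hΓ j hj), hs⟩
    have bit1 : ∀ j < 8, s.testBit j = (c a).testBit j := by
      intro j hj
      rw [Bool.eq_iff_iff, ← hs.2 j (by omega), ← cb a (hSΓ a ha) j (by omega)]
      constructor
      · rintro ⟨x, hx, y, hy, hxy⟩
        rw [Set.mem_singleton_iff] at hy
        subst hy
        have h5 : f j ∈ X0 ∪ {v | ∃ i < 4, v = f (4 + i)} := by
          by_cases hj4 : j < 4
          · exact Or.inl (Or.inl ⟨j, hj4, rfl⟩)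
          · exact Or.inr ⟨j - 4, by omega, by rw [Nat.add_sub_cancel' (by omega)]⟩
        rw [← ua x hx ⟨x, rfl, f j, h5, hxy⟩]
        exact hxy
      · intro h5
        exact ⟨a, ha, f j, rfl, h5⟩
    have bit2 : ∀ j < 4, s.testBit (8 + j) = (c b).testBit (8 + j) := by
      intro j hj
      rw [Bool.eq_iff_iff, ← hs.2 (8 + j) (by omega), ← cb b (hSΓ b hb) (8 + j) (by omega)]
      constructor
      · rintro ⟨x, hx, y, hy, hxy⟩
        rw [Set.mem_singleton_iff] at hy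
        subst hy
        rw [← ub x hx ⟨x, rfl, f (8 + j), Or.inl ⟨j, hj, rfl⟩, hxy⟩]
        exact hxy
      · intro h5
        exact ⟨b, hb, f (8 + j), rfl, h5⟩
    have hsW : s ∈ lW κ := by
      rcases ar_ty κ s (h.ty hG hOb) with h5 | h5 | h5
      · exact h5
      · exact absurd (fun j hj => (bit2 j hj).symm.trans (h5 j hj)) (ar_W1 κ _ (h2 hb).2)
      · exact absurd (fun j hj => (bit1 j (by omega)).symm.trans (h5 j hj)) (ar_W2 κ _ (h2 ha).2)
    -- the two vertices which are touched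
    obtain ⟨x0, hx0, x, hx, hxx⟩ := h3
    obtain ⟨y0, hy0, y, hy, hyy⟩ := h4
    have tx : Tch G S {x} := ⟨x0, hx0, x, rfl, hxx⟩
    have ty' : Tch G S {y} := ⟨y0, hy0, y, rfl, hyy⟩
    have hxcase : (∃ j < 8, s.testBit j = true) ∨ (x ∉ Γ ∧ c x ∈ lA0 ++ lA1) ∨ x ∈ AB1 := by
      rcases hx with (⟨i, hi, rfl⟩ | h5 | h5) | ⟨i, hi, rfl⟩
      · exact Or.inl ⟨i, by omega, (hs.2 i (by omega)).1 tx⟩
      · exact Or.inr (Or.inl h5)
      · exact Or.inr (Or.inr h5)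
      · exact Or.inl ⟨4 + i, by omega, (hs.2 (4 + i) (by omega)).1 tx⟩
    have hycase : (∃ j < 4, s.testBit (8 + j) = true) ∨ (y ∉ Γ ∧ c y ∈ lB) ∨
        (y ∉ Γ ∧ c y = 3855 ∧ y ∉ AB1) := by
      rcases hy with ⟨i, hi, rfl⟩ | h5 | h5
      · exact Or.inl ⟨i, hi, (hs.2 (8 + i) (by omega)).1 ty'⟩
      · exact Or.inr (Or.inl h5)
      · exact Or.inr (Or.inr h5)
    have dS : ∀ v, (v ∉ Γ → c v ∉ lW κ) → v ∉ S := fun v h5 h6 => h5 (h2 h6).1 (h2 h6).2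
    have dA : ∀ v, c v ∈ lA0 ++ lA1 → v ∉ S := fun v h5 =>
      dS v fun _ h6 => (ar_WA κ _ h6).1 h5
    have dAB : ∀ v, c v = 3855 → v ∉ S := fun v h5 =>
      dS v fun _ h6 => (ar_WA κ _ h6).2.1 h5
    have dB : ∀ v, c v ∈ lB → v ∉ S := fun v h5 =>
      dS v fun _ h6 => (ar_WA κ _ h6).2.2 h5
    have dj : ∀ {v}, v ∉ S → Disjoint S ({v} : Set V) := fun h5 => Set.disjoint_singleton_right.2 h5
    have ne1 : ∀ {v w : V}, c v = 3855 → c w = 3840 → v ≠ w := by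
      intro v w h5 h6 h7
      rw [h7, h6] at h5
      exact absurd h5 (by decide)
    rcases List.mem_cons.1 hsW with h5 | h5
    · -- type `O`
      have hOb0 : Ob G f S 0 := h5 ▸ hOb
      have z : ∀ j, s.testBit j = false := fun j => by rw [h5, Nat.zero_testBit]
      rcases hxcase with ⟨j, -, h6⟩ | ⟨hx1, hx2⟩ | ⟨hx1, hx2, w, hw, hcw, hxw⟩
      · rw [z] at h6
        exact Bool.false_ne_true h6
      · rcases hycase with ⟨j, -, h6⟩ | ⟨hy1, hy2⟩ | ⟨hy1, hy2, -⟩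
        · rw [z] at h6
          exact Bool.false_ne_true h6
        · have hne : y ≠ x := fun h7 => (ar_AB _ hx2).1 (h7 ▸ hy2)
          exact h.pO1 hG (hc x hx1) hx2 (hc y hy1) (List.mem_cons_of_mem _ hy2) hOb0 (sing hne)
            (dj (dA x hx2)) (dj (dB y hy2)) tx ty'
        · have hne : y ≠ x := fun h7 => (ar_AB _ hx2).2 (h7 ▸ hy2)
          exact h.pO1 hG (hc x hx1) hx2 (hc y hy1) (hy2 ▸ List.mem_cons_self) hOb0 (sing hne)
            (dj (dA x hx2)) (dj (dAB y hy2)) tx ty'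
      · rcases hycase with ⟨j, -, h6⟩ | ⟨hy1, hy2⟩ | ⟨hy1, hy2, hy3⟩
        · rw [z] at h6
          exact Bool.false_ne_true h6
        · have hne : y ≠ x := fun h7 => (ar_B0 _ hy2).2.1 (h7 ▸ hx2)
          exact h.pO2 hG (hx2 ▸ hc x hx1) (hc y hy1) hy2 hOb0 (sing hne) (dj (dAB x hx2))
            (dj (dB y hy2)) tx ty'
        · have hyw : G.Adj y w := by
            by_contra h7
            exact hy3 ⟨hy1, hy2, w, hw, hcw, h7⟩
          have hyx : y ≠ x := fun h7 => hy3 (h7 ▸ ⟨hx1, hx2, w, hw, hcw, hxw⟩)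
          exact h.pb3 hG (hcw ▸ hc w hw) (hx2 ▸ hc x hx1) (hy2 ▸ hc y hy1) hOb0 (sing (ne1 hx2 hcw))
            (sing hyw.ne) (sing hyx) (dj (dA w (hcw ▸ by decide))) (dj (dAB x hx2))
            (dj (dAB y hy2)) (ntc hxw) (tch_single.2 hyw) tx ty'
    · rcases List.mem_append.1 h5 with h6 | h6
      · -- type `C`
        rcases hxcase with ⟨j, hj, h7⟩ | ⟨hx1, hx2⟩ | ⟨hx1, hx2, w, hw, hcw, hxw⟩
        · rw [ar_C κ s h6 j hj] at h7
          exact Bool.false_ne_true h7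
        · exact h.pAC hG (hc x hx1) hx2 hOb (List.mem_append_left _ h6) (dj (dA x hx2)) tx
        · exact h.pb4 hG (hcw ▸ hc w hw) (hx2 ▸ hc x hx1) hOb h6 (sing (ne1 hx2 hcw))
            (dj (dA w (hcw ▸ by decide))) (dj (dAB x hx2)) (ntc hxw) tx
      · -- type `E`
        rcases hycase with ⟨j, hj, h7⟩ | ⟨hy1, hy2⟩ | ⟨hy1, hy2, -⟩
        · rw [ar_E s h6 j hj] at h7
          exact Bool.false_ne_true h7
        · exact h.pBE hG (hc y hy1) (List.mem_cons_of_mem _ hy2) hOb h6 (dj (dB y hy2)) ty'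
        · exact h.pBE hG (hc y hy1) (hy2 ▸ List.mem_cons_self) hOb h6 (dj (dAB y hy2)) ty'
  -- no component of the rest touches both sets
  have core' : ¬ ∃ S, Conn G S ∧ S ⊆ {v | v ∉ X0 ∧ v ∉ Y0} ∧ Tch G S X0 ∧ Tch G S Y0 := by
    rintro ⟨S, h1, h2, h3, b, hb, y, hy, hby⟩
    have hrest : ∀ v, v ∉ X0 → v ∉ Y0 → (v ∉ Γ ∧ c v ∈ lW κ) ∨ ∃ i < 4, v = f (4 + i) := by
      intro v hvX hvY
      by_cases hv : v ∈ Γ
      · right
        obtain ⟨j, hj, rfl⟩ := hv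
        by_cases hj4 : j < 4
        · exact absurd (Or.inl ⟨j, hj4, rfl⟩) hvX
        · by_cases hj8 : j < 8
          · exact ⟨j - 4, by omega, by rw [Nat.add_sub_cancel' (by omega)]⟩
          · exact absurd (Or.inl ⟨j - 8, by omega, by rw [Nat.add_sub_cancel' (by omega)]⟩) hvY
      · left
        refine ⟨hv, ?_⟩
        rcases ar_D κ _ (ht0 v hv) with h5 | h5 | h5 | h5
        · exact absurd (Or.inr (Or.inl ⟨hv, h5⟩)) hvX
        · by_cases h6 : v ∈ AB1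
          · exact absurd (Or.inr (Or.inr h6)) hvX
          · exact absurd (Or.inr (Or.inr ⟨hv, h5, h6⟩)) hvY
        · exact absurd (Or.inr (Or.inl ⟨hv, h5⟩)) hvY
        · exact h5
    have hbR : ¬ ∃ i < 4, b = f (4 + i) := by
      rintro ⟨i, hi, rfl⟩
      have hz : ∀ s ∈ 3855 :: (lA0 ++ lA1 ++ lB), s.testBit (4 + i) = false := fun s hs =>
        ar_r s hs i hi
      rcases hy with ⟨j, hj, rfl⟩ | ⟨hy1, hy2⟩ | ⟨hy1, hy2, -⟩
      · exact rq j hj i hi hby.symm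
      · have h5 := (cb y hy1 (4 + i) (by omega)).1 hby.symm
        rw [hz _ (List.mem_cons_of_mem _ (List.mem_append_right _ hy2))] at h5
        exact Bool.false_ne_true h5
      · have h5 := (cb y hy1 (4 + i) (by omega)).1 hby.symm
        rw [hz _ (hy2 ▸ List.mem_cons_self)] at h5
        exact Bool.false_ne_true h5
    obtain ⟨C, hC1, hC2, hC3, hC4⟩ := exists_comp G (A := S \ {v | ∃ i < 4, v = f (4 + i)}) (v := b)
      ⟨hb, hbR⟩
    refine core ⟨C, hC3, fun v hv => ?_, ?_, b, hC2, y, hy, hby⟩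
    · rcases hrest v (h2 (hC1 hv).1).1 (h2 (hC1 hv).1).2 with h5 | h5
      · exact h5
      · exact absurd h5 (hC1 hv).2
    · by_cases hCS : C = S
      · rw [hCS]
        exact h3.mono subset_rfl Set.subset_union_left
      · obtain ⟨x, hx, z, hz, hxz⟩ := h1.2 C (fun v hv => (hC1 hv).1) ⟨b, hC2⟩ hCS
        refine ⟨x, hx, z, Or.inr ?_, hxz⟩
        by_contra hzR
        exact hC4 z ⟨hz.1, hzR⟩ ⟨hz.2, x, hx, hxz⟩
  -- the split
  have hdis : ∀ v ∈ X0, v ∉ Y0 := fun v h1 h2 => G.irrefl (hXY v h1 v h2)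
  let A : Set V := {v | v ∉ Y0 ∧ (v ∈ X0 ∨ ∃ S, Conn G S ∧ S ⊆ {v | v ∉ X0 ∧ v ∉ Y0} ∧ v ∈ S ∧
    Tch G S X0)}
  have hX0A : X0 ⊆ A := fun v hv => ⟨hdis v hv, Or.inl hv⟩
  have hY0A : ∀ v ∈ Y0, v ∈ Set.univ \ A := fun v hv => ⟨Set.mem_univ v, fun h1 => h1.1 hv⟩
  refine hS A (Set.subset_univ _) ?_ ?_ ⟨X0, hX0A, Y0, hY0A, fun x hx y hy => ?_⟩
  · exact (Set.one_lt_ncard (Set.toFinite _)).2 ⟨f 0, hX0A (Or.inl ⟨0, by omega, rfl⟩), f 1,
      hX0A (Or.inl ⟨1, by omega, rfl⟩), fne 0 (by omega) 1 (by omega) (by omega)⟩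
  · exact (Set.one_lt_ncard (Set.toFinite _)).2 ⟨f (8 + 0), hY0A _ (Or.inl ⟨0, by omega, rfl⟩),
      f (8 + 1), hY0A _ (Or.inl ⟨1, by omega, rfl⟩), fne _ (by omega) _ (by omega) (by omega)⟩
  · constructor
    · intro hxy
      have hyX : y ∉ X0 := fun h1 => hy.2 (hX0A h1)
      rcases hx with ⟨hxY, hxX | ⟨S, h1, h2, h3, h4⟩⟩
      · refine ⟨hxX, ?_⟩
        by_contra hyY
        exact hy.2 ⟨hyY, Or.inr ⟨{y}, Conn.singleton G y, Set.singleton_subset_iff.2 ⟨hyX, hyY⟩, rfl,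
          y, rfl, x, hxX, hxy.symm⟩⟩
      · exfalso
        by_cases hyY : y ∈ Y0
        · exact core' ⟨S, h1, h2, h4, x, h3, y, hyY, hxy⟩
        · exact hy.2 ⟨hyY, Or.inr ⟨insert y S, h1.insert ⟨x, h3, hxy⟩,
            Set.insert_subset ⟨hyX, hyY⟩ h2, Set.mem_insert _ _,
            h4.mono (Set.subset_insert _ _) subset_rfl⟩⟩
    · rintro ⟨h1, h2⟩
      exact hXY x h1 y h2

end Pool.Agent.MPd439b2.X3.H3G
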