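import Pool.Agent.Lib.MP_d439b2_co.X3.H3G.DT

/-!
# MP_d439b2_co, X3/H3G, PT: decision trees for patterns with unknown pairs

`ms`, `vs` are lists of codes: the pair `(i, j)`, `j < i`, is known if the bit `j` of `ms[i]` is `1`; then the bit `j` of
`vs[i]` is its value.  `PT.chk n m q T ms vs` checks that the tree `T` finds a certificate for the pattern `q` in all
patterns with `n` elements which agree with the known values; the values of the unknown pairs in `vs` have to be `0`.
-/

set_option autoImplicit false

namespace Pool.Agent.MPd439b2.X3.H3G

open Pool.Agent.MPd439b2 Pool.Agent.MPd439b2.BU Pool.Agent.MPd439b2.HC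

/-- set the bit `j` of the entry `i` -/
def upd : List ℕ → ℕ → ℕ → List ℕ
  | [], _, _ => []
  | x :: l, 0, j => (x ||| (1 <<< j)) :: l
  | x :: l, i + 1, j => x :: upd l i j

theorem upd_bit (l : List ℕ) (i j k b : ℕ) :
    ((upd l i j).getD k 0).testBit b =
      ((l.getD k 0).testBit b || (decide (k = i) && decide (b = j) && decide (i < l.length))) := by
  induction l generalizing i k with
  | nil => simp [upd]
  | cons x l ih =>
    cases i with
    | zero =>
      cases k with
      | zero =>
        simp only [upd, List.getD_cons_zero, DT.tb_or]
        simp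
      | succ k =>
        simp only [upd, List.getD_cons_succ]
        simp
    | succ i =>
      cases k with
      | zero =>
        simp only [upd, List.getD_cons_zero]
        simp
      | succ k =>
        simp only [upd, List.getD_cons_succ, ih, List.length_cons, Nat.add_lt_add_iff_right,
          Nat.add_right_cancel_iff]

/-- decision trees: `l` a certificate, `n` a question for a pair -/
inductive PT : Type
  | l : List (List ℕ) → PT
  | n : ℕ → ℕ → PT → PT → PT

namespace PT

/-- see the head of the file -/
def chk (k m : ℕ) (q : ℕ → ℕ → Bool) : PT → List ℕ → List ℕ → Bool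
  | l L, ms, vs => (L.flatten.all fun i => L.flatten.all fun j =>
      !Nat.blt j i || (ms.getD i 0).testBit j) && chkG k m (rc vs) q L
  | n i j lo hi, ms, vs => !(vs.getD i 0).testBit j &&
      (lo.chk k m q (upd ms i j) vs && hi.chk k m q (upd ms i j) (upd vs i j))

/-- the pattern `r` agrees with the known values -/
def Agr (r : ℕ → ℕ → Bool) (ms vs : List ℕ) : Prop :=
  ∀ i j, j < i → (ms.getD i 0).testBit j = true → r i j = (vs.getD i 0).testBit j

theorem sound {k m : ℕ} {q r : ℕ → ℕ → Bool} : ∀ (T : PT) (ms vs : List ℕ),
    T.chk k m q ms vs = true → ms.length = vs.length → Agr r ms vs →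
      ∃ L, chkG k m r q L = true := by
  intro T
  induction T with
  | l L =>
    intro ms vs h _ hA
    simp only [chk, Bool.and_eq_true, List.all_eq_true] at h
    obtain ⟨h1, h2⟩ := h
    refine ⟨L, chkG_congr (fun i hi j hj => ?_) h2⟩
    have h3 : ∀ i j, i ∈ L.flatten → j ∈ L.flatten → j < i → rc vs i j = r i j := by
      intro i j hi hj hij
      have h4 := h1 i hi j hj
      rw [Bool.or_eq_true] at h4
      rcases h4 with h4 | h4
      · rw [Bool.not_eq_true', Bool.eq_false_iff] at h4
        exact absurd (by rw [Nat.blt_eq]; exact hij) h4
      · exact (hA i j hij h4).symm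
    unfold Eng.rs
    rcases lt_trichotomy i j with h6 | h6 | h6
    · have h7 : Nat.blt j i = false := by
        rw [Bool.eq_false_iff]
        intro h8
        rw [Nat.blt_eq] at h8
        omega
      have h8 : Nat.blt i j = true := by rw [Nat.blt_eq]; exact h6
      rw [h7, h8, cond_false, cond_true, cond_false, cond_true]
      exact h3 j i hj hi h6
    · subst h6
      have h7 : Nat.blt i i = false := by
        rw [Bool.eq_false_iff]
        intro h8
        rw [Nat.blt_eq] at h8
        omega
      rw [h7]
      rfl
    · have h7 : Nat.blt j i = true := by rw [Nat.blt_eq]; exact h6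
      rw [h7, cond_true, cond_true]
      exact h3 i j hi hj h6
  | n a b lo hi ih1 ih2 =>
    intro ms vs h hl hA
    simp only [chk, Bool.and_eq_true, Bool.not_eq_true'] at h
    obtain ⟨h0, h1, h2⟩ := h
    have hl' : ∀ l : List ℕ, (upd l a b).length = l.length := by
      intro l
      induction l generalizing a with
      | nil => rfl
      | cons x l ih =>
        cases a with
        | zero => rfl
        | succ a =>
          have : ∀ a, (upd l a b).length = l.length := by
            clear ih
            induction l with
            | nil => intro a; rfl
            | cons y l ih =>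
              intro a
              cases a with
              | zero => rfl
              | succ a => simp only [upd, List.length_cons, ih a]
          simp only [upd, List.length_cons, this a]
    cases hr : r a b with
    | false =>
      refine ih1 _ _ h1 (by rw [hl', hl]) fun i j hij hb => ?_
      rw [upd_bit, Bool.or_eq_true] at hb
      rcases hb with hb | hb
      · exact hA i j hij hb
      · simp only [Bool.and_eq_true, decide_eq_true_eq] at hb
        rw [hb.1.1, hb.1.2, hr, h0]
    | true =>
      refine ih2 _ _ h2 (by rw [hl', hl', hl]) fun i j hij hb => ?_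
      rw [upd_bit, Bool.or_eq_true] at hb
      rw [upd_bit]
      by_cases hc : i = a ∧ j = b
      · obtain ⟨rfl, rfl⟩ := hc
        rw [hr]
        rcases hb with hb | hb
        · have h3 := hA i j hij hb
          rw [h0, hr] at h3
          exact absurd h3.symm Bool.false_ne_true
        · simp only [Bool.and_eq_true, decide_eq_true_eq] at hb
          rw [decide_eq_true (hl ▸ hb.2 : i < vs.length)]
          simp
      · have h3 : (decide (i = a) && decide (j = b) && decide (a < vs.length)) = false := by
          rw [Bool.eq_false_iff]
          intro h4
          simp only [Bool.and_eq_true, decide_eq_true_eq] at h4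
          exact hc h4.1
        rw [h3, Bool.or_false]
        rcases hb with hb | hb
        · exact hA i j hij hb
        · simp only [Bool.and_eq_true, decide_eq_true_eq] at hb
          exact absurd hb.1 hc

/-- **the pattern does not occur** -/
theorem use {V : Type} {G : SimpleGraph V} {k m : ℕ} {q : ℕ → ℕ → Bool} {ms vs : List ℕ}
    {S : ℕ → Set V} {X : Set V} (T : PT) (hT : T.chk k m q ms vs = true) (hG : SPF G X m q)
    (hm : ms.length = k) (hv : vs.length = k) (hX : ∀ i < k, S i ⊆ X) (hc : ∀ i < k, Conn G (S i))
    (hd : ∀ i < k, ∀ j < i, Disjoint (S i) (S j))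
    (ht : ∀ i < k, ∀ j < i, (ms.getD i 0).testBit j = true →
      (Tch G (S i) (S j) ↔ (vs.getD i 0).testBit j = true)) : False := by
  classical
  obtain ⟨L, hL⟩ := sound (r := fun i j => decide (Tch G (S i) (S j))) T ms vs hT (hm.trans hv.symm)
    (fun i j hij hb => by
      by_cases hi : i < k
      · rw [Bool.eq_iff_iff, decide_eq_true_iff]
        exact ht i hi j hij hb
      · rw [List.getD_eq_default _ _ (by omega), Nat.zero_testBit] at hb
        exact absurd hb Bool.false_ne_true)
  have h : SP G X k S (fun i j => decide (Tch G (S i) (S j))) :=
    ⟨hX, hc, hd, fun i _ j _ => decide_eq_true_iff.symm⟩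
  exact hG _ (chkG_sp h hL)

end PT

end Pool.Agent.MPd439b2.X3.H3G
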