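import Pool.Agent.Lib.MP_d439b2_co.X3.H3G.Defs

/-!
# MP_d439b2_co, X3/H3G, TabB: pairs of sets
-/

set_option autoImplicit false

namespace Pool.Agent.MPd439b2.X3.H3G

open Pool.Agent.MPd439b2 Pool.Agent.MPd439b2.BU Pool.Agent.MPd439b2.HC

/-- certificates -/
def cF0 : List (List (List ℕ)) :=
  [[[13],[0],[11,2],[5],[4],[12]], [[9,7,3],[13],[1],[12],[2],[5]],
    [[11,6,2],[13],[1],[12],[0],[5]], [[9,5,1],[13],[3],[12],[0],[7]],
    [[10,4,0],[13],[1],[12],[2],[5]], [[8],[13],[0],[12],[2],[4]], [[13],[11],[1],[6],[0],[12]]]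

/-- certificates -/
def cF1 : List (List (List ℕ)) :=
  [[[13],[0],[10],[7],[4],[12]], [[13],[1],[9,3],[6],[5],[12]], [[9,6,2],[13],[1],[12],[0],[5]],
    [[10,4,0],[13],[3],[12],[1],[7]], [[8,7,3],[13],[1],[12],[2],[5]],
    [[10,5,1],[13],[2],[12],[3],[6]], [[11],[13],[3],[12],[0],[7]]]

/-- certificates -/
def cF (κ : Bool) : List (List (List ℕ)) := bif κ then cF1 else cF0

/-- certificates -/
def cAB0 : List (List (List ℕ)) :=
  [[[1],[8,0],[13],[5],[12],[3]], [[1],[11,3],[9],[5],[13],[12]],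
    [[2],[9,1],[10],[6],[13],[12]], [[2],[9],[13],[6],[12],[1]], [[3],[10],[13],[7],[12],[0]],
    [[0],[10],[13],[4],[12],[2]], [[0],[8,2],[11],[4],[13],[12]], [[1],[11],[13],[5],[12],[0]],
    [[1],[11,2],[8],[5],[13],[12]]]

/-- certificates -/
def cAB1 : List (List (List ℕ)) :=
  [[[0],[9,2],[11],[4],[13],[12]], [[3],[9,0],[13],[7],[12],[2]], [[3],[11],[8],[7],[13],[12]],
    [[0],[10,3],[13],[4],[12],[1]], [[1],[8],[13],[5],[12],[3]], [[3],[11],[13],[7],[12],[0]],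
    [[0],[8],[9],[4],[13],[12]], [[1],[9,0],[13],[5],[12],[3]], [[3],[11],[10],[7],[13],[12]]]

/-- certificates -/
def cAB (κ : Bool) : List (List (List ℕ)) := bif κ then cAB1 else cAB0

/-- certificates -/
def cAA0 : List (List (List ℕ)) :=
  [[[1],[11],[13],[5],[12],[2]], [[0],[11],[13],[4],[12],[1]], [[2],[8],[13],[6],[12],[0]],
    [[1],[10],[13],[5],[12],[3]], [[3],[10],[13],[7],[12],[1]]]

/-- certificates -/
def cAA1 : List (List (List ℕ)) :=
  [[[2],[9],[13],[6],[12],[0]], [[3],[8],[13],[7],[12],[2]], [[0],[8],[13],[4],[12],[3]],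
    [[3],[9],[13],[7],[12],[1]], [[1],[10],[13],[5],[12],[0]]]

/-- certificates -/
def cAA (κ : Bool) : List (List (List ℕ)) := bif κ then cAA1 else cAA0

/-- certificates -/
def cAC0 : List (List (List ℕ)) :=
  [[[9,3],[12,10],[2],[7],[1],[13,6]], [[11,3],[12,8],[1],[7],[2],[13,5]],
    [[8,2],[12],[9],[6],[11],[13]], [[11,0],[12,9],[3],[4],[1],[13,7]],
    [[3],[12,8],[9],[7],[13],[1]], [[10,1],[12,11],[0],[5],[3],[13,4]],
    [[1],[12,8],[10],[5],[13],[2]], [[2],[12,11],[8],[6],[13],[3]],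
    [[2],[12],[10],[6],[11],[13]], [[0],[12,10],[11],[4],[13],[2]], [[2],[12],[8],[6],[9],[13]],
    [[0],[12],[11],[4],[10],[13]], [[3],[12],[10],[7],[9],[13]], [[8,0],[11],[12],[4],[2],[13]],
    [[9,3],[12],[8],[7],[11],[13]], [[2],[12],[11],[6],[10],[13]], [[0],[12],[10],[4],[9],[13]],
    [[11,3],[12],[10],[7],[8],[13]]]

/-- certificates -/
def cAC1 : List (List (List ℕ)) :=
  [[[8,1],[11],[12],[5],[3],[13]], [[11,2],[9],[12],[6],[1],[13]],
    [[8,0],[12,10],[1],[4],[2],[13,5]], [[10,0],[12,11],[3],[4],[1],[13,7]],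
    [[10,1],[12,8],[0],[5],[2],[13,4]], [[8,2],[10],[12],[6],[0],[13]],
    [[11,3],[12,10],[2],[7],[0],[13,6]], [[9,2],[8],[12],[6],[0],[13]],
    [[10,1],[9],[12],[5],[2],[13]], [[3],[12,11],[10],[7],[13],[0]],
    [[2],[12,9],[8],[6],[13],[0]], [[9,0],[8],[12],[4],[1],[13]],
    [[1],[12,9],[11],[5],[13],[0]], [[0],[12,10],[8],[4],[13],[1]],
    [[11,3],[10],[12],[7],[2],[13]], [[8,2],[11],[12],[6],[1],[13]],
    [[10,0],[9],[12],[4],[3],[13]], [[9,3],[11],[12],[7],[2],[13]],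
    [[10,1],[9],[12],[5],[0],[13]], [[9,1],[8],[12],[5],[3],[13]],
    [[11,0],[10],[12],[4],[3],[13]], [[8,2],[11],[12],[6],[0],[13]],
    [[12,2],[10],[11],[6],[13],[1]], [[12,2],[9],[11],[6],[13],[0]],
    [[10,3],[8],[12],[7],[2],[13]], [[12,3],[11],[8],[7],[13],[2]],
    [[10,3],[11],[12],[7],[1],[13]]]

/-- certificates -/
def cAC (κ : Bool) : List (List (List ℕ)) := bif κ then cAC1 else cAC0

/-- certificates -/
def cBE0 : List (List (List ℕ)) :=
  [[[8,1],[12],[3],[5],[0],[13]], [[8,1],[12],[0],[5],[3],[13]], [[8,0],[12],[1],[4],[3],[13]],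
    [[8,1],[12],[2],[5],[3],[13]], [[11,1],[12],[0],[5],[2],[13,4]],
    [[11,1],[12],[2],[5],[3],[13,6]], [[9,1],[12],[3],[5],[0],[13,7]],
    [[8,3],[12],[1],[7],[0],[13,5]]]

/-- certificates -/
def cBE1 : List (List (List ℕ)) :=
  [[[9,2],[12],[1],[6],[0],[13]], [[11,3],[12],[2],[7],[1],[13,6]],
    [[8,2],[12],[3],[6],[1],[13]], [[8,3],[12],[0],[7],[1],[13,4]],
    [[9,3],[12],[1],[7],[0],[13,5]], [[0],[12],[8,3],[4],[13],[1]],
    [[8,1],[12],[3],[5],[2],[13,7]], [[2],[12],[11,1],[6],[13],[0]]]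

/-- certificates -/
def cBE (κ : Bool) : List (List (List ℕ)) := bif κ then cBE1 else cBE0

theorem tF (κ : Bool) : ((lN κ).all fun s => kb 14 (cF κ) (gs κ ++ [s] ++ [cat 12 4095 false])) =
    true := by
  cases κ <;> decide +kernel

theorem tAB (κ : Bool) : ((lA0 ++ lA1).all fun s => lB.all fun t =>
    kb 14 (cAB κ) (gs κ ++ [s] ++ [cat 12 t false])) = true := by
  cases κ <;> decide +kernel

theorem tAA (κ : Bool) : (lA1.all fun s => kb 14 (cAA κ) (gs κ ++ [s] ++ [cat 12 3855 false])) =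
    true := by
  cases κ <;> decide +kernel

theorem tAC (κ : Bool) : ((lA0 ++ lA1).all fun s => (lC κ ++ lE).all fun t =>
    kb 14 (cAC κ) (gs κ ++ [s] ++ [cat 12 t true])) = true := by
  cases κ <;> decide +kernel

theorem tBE (κ : Bool) : ((3855 :: lB).all fun s => lE.all fun t =>
    kb 14 (cBE κ) (gs κ ++ [s] ++ [cat 12 t true])) = true := by
  cases κ <;> decide +kernel

end Pool.Agent.MPd439b2.X3.H3G
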