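import Pool.Agent.Lib.MP_d439b2_co.X3.H3G.Defs

/-!
# MP_d439b2_co, X3/H3G, TabC: triples and quadruples of sets
-/

set_option autoImplicit false

namespace Pool.Agent.MPd439b2.X3.H3G

open Pool.Agent.MPd439b2 Pool.Agent.MPd439b2.BU Pool.Agent.MPd439b2.HC

/-- certificates -/
def cO0 : List (List (List ℕ)) :=
  [[[9,0],[12],[13],[4],[10],[14]], [[10,0],[13],[12],[4],[1],[14]],
    [[1],[12,8],[13],[5],[10],[14]], [[10,1],[13,11],[12],[5],[0],[14]],
    [[2],[10],[13],[6],[12],[1]], [[1],[12],[13],[5],[11],[14]], [[0],[9],[13],[4],[12],[2]],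
    [[1],[10],[13],[5],[12],[3]], [[0],[12],[13,11],[4],[9],[14]],
    [[1],[8,3],[9],[5],[13],[12]], [[3],[12],[13,10],[7],[11],[14]],
    [[2],[12],[13,9],[6],[10],[14]], [[2],[9,1],[11],[6],[13],[12]],
    [[9,0],[13],[12],[4],[2],[14]], [[1],[12],[13,11],[5],[8],[14]],
    [[2],[12,1],[13],[6],[11],[14]], [[12,1],[13],[10],[5],[14],[3]]]

/-- certificates -/
def cO1 : List (List (List ℕ)) :=
  [[[1],[12,11],[13],[5],[10],[14]], [[8,3],[13],[12],[7],[1],[14]],
    [[1],[10,2],[8],[5],[13],[12]], [[1],[12],[13],[5],[11],[14]], [[1],[10],[13],[5],[12],[0]],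
    [[2],[9],[11],[6],[13],[12]], [[11,3],[13,10],[12],[7],[0],[14]],
    [[2],[12,1],[13],[6],[9],[14]], [[1],[8],[11],[5],[13],[12]],
    [[3],[12,1],[13],[7],[11],[14]], [[0],[10],[13],[4],[12],[3]], [[0],[12],[13],[4],[8],[14]],
    [[0],[11],[13],[4],[12],[2]], [[3],[8],[11],[7],[13],[12]], [[11,0],[13],[12],[4],[2],[14]],
    [[1],[12,9],[13],[5],[8],[14]], [[2],[10],[13],[6],[12],[1]],
    [[12,0],[13],[11],[4],[14],[3]], [[1],[11],[13,2],[5],[12],[3]]]

/-- certificates -/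
def cO (κ : Bool) : List (List (List ℕ)) := bif κ then cO1 else cO0

/-- certificates -/
def cb10 : List (List (List ℕ)) :=
  [[[3],[10,2],[14],[7],[13],[12]]]

/-- certificates -/
def cb11 : List (List (List ℕ)) :=
  [[[0],[8,2],[14],[4],[13],[12]]]

/-- certificates -/
def cb1 (κ : Bool) : List (List (List ℕ)) := bif κ then cb11 else cb10

/-- certificates -/
def cb20 : List (List (List ℕ)) :=
  [[[3],[11],[14],[7],[13],[12]]]

/-- certificates -/
def cb21 : List (List (List ℕ)) :=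
  [[[3],[9],[14],[7],[13],[12]]]

/-- certificates -/
def cb2 (κ : Bool) : List (List (List ℕ)) := bif κ then cb21 else cb20

/-- certificates -/
def cb30 : List (List (List ℕ)) :=
  [[[8,3],[14],[13],[7],[12],[15]]]

/-- certificates -/
def cb31 : List (List (List ℕ)) :=
  [[[11,2],[14],[13],[6],[12],[15]]]

/-- certificates -/
def cb3 (κ : Bool) : List (List (List ℕ)) := bif κ then cb31 else cb30

/-- certificates -/
def cb40 : List (List (List ℕ)) :=
  [[[3],[13],[8],[7],[10],[14]], [[0],[13],[11],[4],[9],[14]], [[3],[13],[10],[7],[8],[14]],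
    [[0],[13],[9],[4],[11],[14]]]

/-- certificates -/
def cb41 : List (List (List ℕ)) :=
  [[[13,2],[11],[8],[6],[14],[12]], [[11,1],[9],[13],[5],[12],[14]],
    [[13,1],[8],[9],[5],[14],[12]], [[11,2],[10],[13],[6],[12],[14]],
    [[10,3],[9],[13],[7],[12],[14]]]

/-- certificates -/
def cb4 (κ : Bool) : List (List (List ℕ)) := bif κ then cb41 else cb40

/-- certificates -/
def cS0 : List (List (List ℕ)) :=
  [[[12,10,6,2],[13],[1],[14],[3],[5]], [[12,9,4,0],[13],[3],[14],[2],[7]],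
    [[12,8,7,3],[13],[0],[14],[1],[4]], [[12,9,5,1],[13],[2],[14],[0],[6]],
    [[12,11],[13],[1],[14],[0],[5]]]

/-- certificates -/
def cS1 : List (List (List ℕ)) :=
  [[[12,11,6,2],[13],[0],[14],[3],[4]], [[12,9,5,1],[13],[3],[14],[2],[7]],
    [[12,8,7,3],[13],[1],[14],[2],[5]], [[12,9,4,0],[13],[2],[14],[1],[6]],
    [[12,10],[13],[1],[14],[3],[5]]]

/-- certificates -/
def cS (κ : Bool) : List (List (List ℕ)) := bif κ then cS1 else cS0

theorem tO1 (κ : Bool) : ((lA0 ++ lA1).all fun s => (3855 :: lB).all fun t => [false, true].all fun b =>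
    kb 15 (cO κ) (gs κ ++ [s] ++ [cat 12 t b] ++ [cat 13 (cat 12 0 true) true])) = true := by
  cases κ <;> decide +kernel

theorem tO2 (κ : Bool) : (lB.all fun t => [false, true].all fun b =>
    kb 15 (cO κ) (gs κ ++ [3855] ++ [cat 12 t b] ++ [cat 13 (cat 12 0 true) true])) = true := by
  cases κ <;> decide +kernel

theorem tb1 (κ : Bool) : (lB.all fun u => kb 15 (cb1 κ)
    (gs κ ++ [3840] ++ [cat 12 3855 false] ++ [cat 13 (cat 12 u true) false])) = true := by
  cases κ <;> decide +kernel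

theorem tb2 (κ : Bool) : kb 15 (cb2 κ)
    (gs κ ++ [3840] ++ [cat 12 3855 false] ++ [cat 13 (cat 12 3855 true) false]) = true := by
  cases κ <;> decide +kernel

theorem tb3 (κ : Bool) : kb 16 (cb3 κ)
    (gs κ ++ [3840] ++ [cat 12 3855 false] ++ [cat 13 (cat 12 3855 true) true] ++
      [cat 14 (cat 13 (cat 12 0 false) true) true]) = true := by
  cases κ <;> decide +kernel

theorem tb4 (κ : Bool) : ((lC κ).all fun u => kb 15 (cb4 κ)
    (gs κ ++ [3840] ++ [cat 12 3855 false] ++ [cat 13 (cat 12 u false) true])) = true := by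
  cases κ <;> decide +kernel

theorem tS (κ : Bool) : ((lN κ).all fun s => kb 15 (cS κ)
    (gs κ ++ [s] ++ [cat 12 4095 true] ++ [cat 13 (cat 12 0 true) false])) = true := by
  cases κ <;> decide +kernel

end Pool.Agent.MPd439b2.X3.H3G
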