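import Pool.Agent.Lib.MP_d439b2_co.X3.H3G.TabA
import Pool.Agent.Lib.MP_d439b2_co.X3.H3G.TabB
import Pool.Agent.Lib.MP_d439b2_co.X3.H3G.TabC

/-!
# MP_d439b2_co, X3/H3G, Sem: the facts about pairs, triples and quadruples of sets; minimal connected sets
-/

set_option autoImplicit false

namespace Pool.Agent.MPd439b2.X3.H3G

open Pool.Agent.MPd439b2 Pool.Agent.MPd439b2.BU Pool.Agent.MPd439b2.HC

variable {V : Type} {G : SimpleGraph V} {κ : Bool} {f : ℕ → V}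

private theorem ft {p : Prop} (h : ¬ p) : p ↔ false = true := iff_of_false h Bool.false_ne_true

private theorem tt {p : Prop} (h : p) : p ↔ true = true := iff_of_true h rfl

/-- `F` is complete to `A`, `B`, `C`, `E` -/
theorem Gam.pF (h : Gam G κ f) (hG : SPF G Set.univ 6 r3) {K L : Set V} {s : ℕ} (hK : Ob G f K s)
    (hs : s ∈ lN κ) (hL : Ob G f L 4095) (hd : Disjoint L K) : Tch G L K := by
  by_contra hc
  exact kl hG (h.sp2 hK hL hd (ft hc)) (List.all_eq_true.1 (tF κ) s hs)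

/-- `A'` is complete to `B'` -/
theorem Gam.pAB (h : Gam G κ f) (hG : SPF G Set.univ 6 r3) {K L : Set V} {s t : ℕ}
    (hK : Ob G f K s) (hs : s ∈ lA0 ++ lA1) (hL : Ob G f L t) (ht : t ∈ lB) (hd : Disjoint L K) :
    Tch G L K := by
  by_contra hc
  exact kl hG (h.sp2 hK hL hd (ft hc)) (List.all_eq_true.1 (List.all_eq_true.1 (tAB κ) s hs) t ht)

/-- `AB` is complete to `A'` with non-empty `p`-part -/
theorem Gam.pAA (h : Gam G κ f) (hG : SPF G Set.univ 6 r3) {K L : Set V} {s : ℕ}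
    (hK : Ob G f K s) (hs : s ∈ lA1) (hL : Ob G f L 3855) (hd : Disjoint L K) : Tch G L K := by
  by_contra hc
  exact kl hG (h.sp2 hK hL hd (ft hc)) (List.all_eq_true.1 (tAA κ) s hs)

/-- `C`, `E` are anticomplete to `A'` -/
theorem Gam.pAC (h : Gam G κ f) (hG : SPF G Set.univ 6 r3) {K L : Set V} {s t : ℕ}
    (hK : Ob G f K s) (hs : s ∈ lA0 ++ lA1) (hL : Ob G f L t) (ht : t ∈ lC κ ++ lE)
    (hd : Disjoint L K) : ¬ Tch G L K := fun hc =>
  kl hG (h.sp2 hK hL hd (tt hc)) (List.all_eq_true.1 (List.all_eq_true.1 (tAC κ) s hs) t ht)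

/-- `E` is anticomplete to `B'`, `AB` -/
theorem Gam.pBE (h : Gam G κ f) (hG : SPF G Set.univ 6 r3) {K L : Set V} {s t : ℕ}
    (hK : Ob G f K s) (hs : s ∈ 3855 :: lB) (hL : Ob G f L t) (ht : t ∈ lE)
    (hd : Disjoint L K) : ¬ Tch G L K := fun hc =>
  kl hG (h.sp2 hK hL hd (tt hc)) (List.all_eq_true.1 (List.all_eq_true.1 (tBE κ) s hs) t ht)

theorem mem_ft (b : Bool) : b ∈ [false, true] := by
  cases b <;> decide

/-- a set of type `O` does not touch an `A'` and a `B` -/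
theorem Gam.pO1 (h : Gam G κ f) (hG : SPF G Set.univ 6 r3) {K L M : Set V} {s t : ℕ}
    (hK : Ob G f K s) (hs : s ∈ lA0 ++ lA1) (hL : Ob G f L t) (ht : t ∈ 3855 :: lB)
    (hM : Ob G f M 0) (hLK : Disjoint L K) (hMK : Disjoint M K) (hML : Disjoint M L)
    (h1 : Tch G M K) (h2 : Tch G M L) : False := by
  obtain ⟨b, hb⟩ : ∃ b : Bool, Tch G L K ↔ b = true := by
    by_cases hc : Tch G L K
    · exact ⟨true, tt hc⟩
    · exact ⟨false, ft hc⟩
  exact kl hG (h.sp3 hK hL hM hLK hMK hML hb (tt h1) (tt h2))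
    (List.all_eq_true.1 (List.all_eq_true.1 (List.all_eq_true.1 (tO1 κ) s hs) t ht) b (mem_ft b))

/-- a set of type `O` does not touch an `AB` and a `B'` -/
theorem Gam.pO2 (h : Gam G κ f) (hG : SPF G Set.univ 6 r3) {K L M : Set V} {t : ℕ}
    (hK : Ob G f K 3855) (hL : Ob G f L t) (ht : t ∈ lB)
    (hM : Ob G f M 0) (hLK : Disjoint L K) (hMK : Disjoint M K) (hML : Disjoint M L)
    (h1 : Tch G M K) (h2 : Tch G M L) : False := by
  obtain ⟨b, hb⟩ : ∃ b : Bool, Tch G L K ↔ b = true := by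
    by_cases hc : Tch G L K
    · exact ⟨true, tt hc⟩
    · exact ⟨false, ft hc⟩
  exact kl hG (h.sp3 hK hL hM hLK hMK hML hb (tt h1) (tt h2))
    (List.all_eq_true.1 (List.all_eq_true.1 (tO2 κ) t ht) b (mem_ft b))

/-- `v ∈ AB`, `w ∈ A0`, `v ≁ w`, `x ∈ B'`: `x` touches `v` -/
theorem Gam.pb1 (h : Gam G κ f) (hG : SPF G Set.univ 6 r3) {w v x : Set V} {u : ℕ}
    (hw : Ob G f w 3840) (hv : Ob G f v 3855) (hx : Ob G f x u) (hu : u ∈ lB) (hvw : Disjoint v w)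
    (hxw : Disjoint x w) (hxv : Disjoint x v) (h1 : ¬ Tch G v w) : Tch G x v := by
  by_contra hc
  have h2 : Tch G x w := h.pAB hG hw (by decide) hx hu hxw
  exact kl hG (h.sp3 hw hv hx hvw hxw hxv (ft h1) (tt h2) (ft hc)) (List.all_eq_true.1 (tb1 κ) u hu)

/-- `v, x ∈ AB`, `w ∈ A0`, `v ≁ w`, `x ~ w`: `x` touches `v` -/
theorem Gam.pb2 (h : Gam G κ f) (hG : SPF G Set.univ 6 r3) {w v x : Set V}
    (hw : Ob G f w 3840) (hv : Ob G f v 3855) (hx : Ob G f x 3855) (hvw : Disjoint v w)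
    (hxw : Disjoint x w) (hxv : Disjoint x v) (h1 : ¬ Tch G v w) (h2 : Tch G x w) : Tch G x v := by
  by_contra hc
  exact kl hG (h.sp3 hw hv hx hvw hxw hxv (ft h1) (tt h2) (ft hc)) (tb2 κ)

/-- `v, x ∈ AB`, `w ∈ A0`, `v ≁ w`, `x ~ w`: no set of type `O` touches both -/
theorem Gam.pb3 (h : Gam G κ f) (hG : SPF G Set.univ 6 r3) {w v x s : Set V}
    (hw : Ob G f w 3840) (hv : Ob G f v 3855) (hx : Ob G f x 3855) (hs : Ob G f s 0)
    (hvw : Disjoint v w) (hxw : Disjoint x w) (hxv : Disjoint x v) (hsw : Disjoint s w)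
    (hsv : Disjoint s v) (hsx : Disjoint s x) (h1 : ¬ Tch G v w) (h2 : Tch G x w)
    (h3 : Tch G s v) (h4 : Tch G s x) : False := by
  have h5 : ¬ Tch G s w := fun h6 => h.pO1 hG hw (by decide) hx (by decide) hs hxw hsw hsx h6 h4
  exact kl hG (h.sp4 hw hv hx hs hvw hxw hxv hsw hsv hsx (ft h1) (tt h2)
    (tt (h.pb2 hG hw hv hx hvw hxw hxv h1 h2)) (ft h5) (tt h3) (tt h4)) (tb3 κ)

/-- `v ∈ AB`, `w ∈ A0`, `v ≁ w`: no set of type `C` touches `v` -/
theorem Gam.pb4 (h : Gam G κ f) (hG : SPF G Set.univ 6 r3) {w v x : Set V} {u : ℕ}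
    (hw : Ob G f w 3840) (hv : Ob G f v 3855) (hx : Ob G f x u) (hu : u ∈ lC κ) (hvw : Disjoint v w)
    (hxw : Disjoint x w) (hxv : Disjoint x v) (h1 : ¬ Tch G v w) : ¬ Tch G x v := by
  intro hc
  have h2 : ¬ Tch G x w := h.pAC hG hw (by decide) hx (List.mem_append_left _ hu) hxw
  exact kl hG (h.sp3 hw hv hx hvw hxw hxv (ft h1) (ft h2) (tt hc)) (List.all_eq_true.1 (tb4 κ) u hu)

/-- step 1 -/
theorem Gam.pS (h : Gam G κ f) (hG : SPF G Set.univ 6 r3) {T L k : Set V} {s : ℕ}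
    (hT : Ob G f T s) (hs : s ∈ lN κ) (hL : Ob G f L 4095) (hk : Ob G f k 0) (hLT : Disjoint L T)
    (hkT : Disjoint k T) (hkL : Disjoint k L) (h1 : Tch G L T) (h2 : Tch G k T) : Tch G k L := by
  by_contra hc
  exact kl hG (h.sp3 hT hL hk hLT hkT hkL (tt h1) (tt h2) (ft hc)) (List.all_eq_true.1 (tS κ) s hs)

/-! ### minimal connected sets -/

/-- a minimal connected set which touches `L` and `N` contains only one vertex touching `L` -/
theorem uniq [Finite V] {W L N S : Set V} (hS : Conn G S) (hSW : S ⊆ W) (hN : Tch G S N)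
    (hmin : ∀ S', Conn G S' → S' ⊆ W → Tch G S' L → Tch G S' N → S.ncard ≤ S'.ncard) {a a' : V}
    (ha : a ∈ S) (ha' : a' ∈ S) (hL : Tch G {a} L) (hL' : Tch G {a'} L) : a = a' := by
  by_contra hne
  obtain ⟨b, hb, y, hy, hby⟩ := hN
  have small : ∀ S', Conn G S' → S' ⊆ S → Tch G S' L → Tch G S' N → S' = S := by
    intro S' h1 h2 h3 h4
    exact Set.eq_of_subset_of_ncard_le h2 (hmin S' h1 (h2.trans hSW) h3 h4) (Set.toFinite _)
  by_cases hba : b = a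
  · subst hba
    have h1 := small {b} (Conn.singleton G b) (Set.singleton_subset_iff.2 hb) hL ⟨b, rfl, y, hy, hby⟩
    rw [← h1] at ha'
    exact hne (Set.mem_singleton_iff.1 ha').symm
  · obtain ⟨C, hC1, hC2, hC3, hC4⟩ := exists_comp G (A := S \ {a}) (v := b) ⟨hb, hba⟩
    have hCS : C ⊆ S := fun v hv => (hC1 hv).1
    have haC : a ∉ C := fun h => (hC1 h).2 rfl
    have hCN : Tch G C N := ⟨b, hC2, y, hy, hby⟩
    -- `C` touches `a`
    obtain ⟨c, hc, d, hd, hcd⟩ := hS.2 C hCS ⟨b, hC2⟩ (fun h => haC (h ▸ ha))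
    have hda : d = a := by
      by_contra h
      exact hC4 d ⟨hd.1, h⟩ ⟨hd.2, c, hc, hcd⟩
    subst hda
    have h1 := small (insert d C) (hC3.insert ⟨c, hc, hcd⟩)
      (Set.insert_subset ha hCS) (hL.mono (Set.singleton_subset_iff.2 (Set.mem_insert _ _)) subset_rfl)
      (hCN.mono (Set.subset_insert _ _) subset_rfl)
    have h2 : a' ∈ C := by
      rw [← h1] at ha'
      rcases ha' with h3 | h3
      · exact absurd h3.symm hne
      · exact h3
    have h3 := small C hC3 hCS (hL'.mono (Set.singleton_subset_iff.2 h2) subset_rfl) hCN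
    exact haC (h3.symm ▸ ha)

/-- minimal connected sets which touch `L` and `N` -/
theorem minC [Finite V] {W L N : Set V}
    (h : ∃ S, Conn G S ∧ S ⊆ W ∧ Tch G S L ∧ Tch G S N) :
    ∃ S, Conn G S ∧ S ⊆ W ∧ Tch G S L ∧ Tch G S N ∧ ∃ a ∈ S, ∃ b ∈ S,
      (∀ x ∈ S, Tch G {x} L → x = a) ∧ ∀ x ∈ S, Tch G {x} N → x = b := by
  classical
  have hex : ∃ n, ∃ S, Conn G S ∧ S ⊆ W ∧ Tch G S L ∧ Tch G S N ∧ S.ncard = n := by
    obtain ⟨S, h1, h2, h3, h4⟩ := h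
    exact ⟨S.ncard, S, h1, h2, h3, h4, rfl⟩
  obtain ⟨S, h1, h2, h3, h4, h5⟩ := Nat.find_spec hex
  have hmin : ∀ S', Conn G S' → S' ⊆ W → Tch G S' L → Tch G S' N → S.ncard ≤ S'.ncard := by
    intro S' k1 k2 k3 k4
    rw [h5]
    exact Nat.find_min' hex ⟨S', k1, k2, k3, k4, rfl⟩
  obtain ⟨a, ha, x, hx, hax⟩ := h3
  obtain ⟨b, hb, y, hy, hby⟩ := h4
  refine ⟨S, h1, h2, ⟨a, ha, x, hx, hax⟩, ⟨b, hb, y, hy, hby⟩, a, ha, b, hb, fun z hz hzL => ?_,
    fun z hz hzN => ?_⟩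
  · exact uniq h1 h2 ⟨b, hb, y, hy, hby⟩ hmin hz ha hzL ⟨a, rfl, x, hx, hax⟩
  · exact uniq (L := N) (N := L) h1 h2 ⟨a, ha, x, hx, hax⟩
      (fun S' k1 k2 k3 k4 => hmin S' k1 k2 k4 k3) hz hb hzN ⟨b, rfl, y, hy, hby⟩

end Pool.Agent.MPd439b2.X3.H3G
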