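import Pool.Agent.Lib.MP_d439b2_co.X3.H3G.DT

/-!
# MP_d439b2_co, X3/H3G, TabA: the types of one set
-/

set_option autoImplicit false

namespace Pool.Agent.MPd439b2.X3.H3G

open Pool.Agent.MPd439b2 Pool.Agent.MPd439b2.BU Pool.Agent.MPd439b2.HC

/-- the decision tree, `κ = false` -/
def dT0 : DT :=
  (.n 4 (.n 7 (.n 5 (.n 6 (.n 9 (.n 8 (.n 10 (.n 11 (.n 0 (.n 2 (.n 3 (.n 1 .o .o) (.n 1 .o (.l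
  [[3],[8,1],[9],[7],[12],[2]]))) (.n 3 (.n 1 .o (.l [[1],[9,2],[10],[5],[12],[0]])) (.l
  [[2],[10,3],[9],[6],[12],[0]]))) (.n 1 (.n 2 (.n 3 .o (.l [[0],[8,3],[10],[4],[12],[2]])) (.l
  [[2],[9,0],[11],[6],[12],[1]])) (.n 2 (.l [[1],[8,0],[9],[5],[12],[2]]) (.n 3 (.l
  [[2],[9,0],[8],[6],[12],[3]]) .o)))) (.n 0 (.n 3 (.n 1 (.n 2 .o (.l
  [[8,3],[2],[11],[7],[9],[12]])) (.l [[9,3],[1],[11],[7],[10],[12]])) (.l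
  [[10,0],[3],[11],[4],[9],[12]])) (.n 3 (.l [[8,3],[0],[11],[7],[10],[12]]) (.n 2 (.l
  [[10,2],[0],[11],[6],[8],[12]]) (.n 1 (.l [[8,1],[3],[11],[5],[10],[12]]) .o))))) (.n 3 (.n 0
  (.n 11 (.n 2 (.n 1 .o (.l [[11,3],[1],[10],[7],[9],[12]])) (.l [[2],[10],[9,0],[6],[12],[3]]))
  (.l [[0],[11,3],[10],[4],[9],[12]])) (.l [[8,3],[0],[10],[7],[9],[12]])) (.n 0 (.l
  [[9,0],[3],[10],[4],[8],[12]]) (.n 1 (.l [[9,1],[3],[10],[5],[8],[12]]) (.n 2 (.l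
  [[8,2],[0],[10],[6],[9],[12]]) (.n 11 .o .o)))))) (.n 2 (.n 1 (.n 11 (.n 10 (.n 0 (.n 3 .o (.l
  [[9,2],[3],[8],[6],[10],[12]])) (.l [[0],[8],[10,1],[4],[12],[2]])) (.l
  [[1],[10,2],[8],[5],[9],[12]])) (.l [[2],[11,1],[8],[6],[9],[12]])) (.n 0 (.l
  [[1],[8],[9,0],[5],[12],[2]]) (.l [[0],[8,1],[9],[4],[12],[2]]))) (.n 1 (.n 10 (.l
  [[10,1],[2],[8],[5],[9],[12]]) (.l [[1],[10,2],[8],[5],[9],[12]])) (.n 0 (.l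
  [[1],[8,2],[9],[5],[12],[0]]) (.n 3 (.l [[2],[8,0],[9],[6],[12],[3]]) (.n 11 (.n 10 .o .o) (.n
  10 .o .o))))))) (.n 11 (.n 1 (.n 2 (.n 3 (.n 10 (.n 0 (.n 8 .o (.l
  [[1],[8,0],[9],[5],[11],[12]])) (.l [[0],[9],[11,1],[4],[12],[2]])) (.l
  [[1],[9,2],[10],[5],[11],[12]])) (.l [[3],[9],[11,1],[7],[12],[2]])) (.n 3 (.l
  [[2],[9],[11,3],[6],[12],[1]]) (.l [[2],[9,3],[11],[6],[12],[1]]))) (.n 3 (.n 10 (.l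
  [[10,3],[1],[9],[7],[11],[12]]) (.l [[3],[9,1],[10],[7],[11],[12]])) (.n 2 (.l
  [[1],[9,3],[11],[5],[12],[2]]) (.n 0 (.l [[1],[9,3],[11],[5],[12],[0]]) (.n 10 (.n 8 .o .o) (.n
  8 .o .o)))))) (.n 10 (.n 3 (.n 2 (.l [[2],[9,3],[11],[6],[10],[12]]) (.l
  [[3],[11,2],[9],[7],[10],[12]])) (.n 0 (.l [[0],[9,3],[11],[4],[10],[12]]) (.n 1 (.l
  [[0],[11,3],[10],[4],[12],[1]]) (.n 2 (.l [[3],[11,1],[10],[7],[12],[2]]) (.n 8 .o .o))))) (.n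
  8 (.n 2 (.n 1 (.l [[1],[10,2],[9],[5],[8],[12]]) (.l [[2],[9,1],[11],[6],[8],[12]])) (.n 1 (.l
  [[1],[9,2],[11],[5],[8],[12]]) (.n 0 (.l [[0],[9,2],[10],[4],[8],[12]]) (.n 3 (.l
  [[0],[11,2],[8],[4],[12],[3]]) .o)))) (.n 3 (.n 1 (.n 2 (.n 0 .o .o) (.n 0 .o .o)) (.n 0 (.n 2
  .o .o) (.n 2 .o .o))) (.n 1 (.n 0 (.n 2 .o .o) (.n 2 .o .o)) (.n 0 (.n 2 .o .o) (.n 2 .o
  .o)))))))) (.n 0 (.n 1 (.n 11 (.n 9 (.n 3 (.n 10 (.n 8 (.n 2 .o .o) (.n 2 (.l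
  [[10,1],[2],[8],[5],[11],[12,6]]) (.l [[9,1],[2],[8],[5],[10],[12]]))) (.n 2 (.l
  [[9,0],[2],[10],[4],[11],[12,6]]) (.l [[10,0],[2],[12],[4],[11],[6]]))) (.n 2 (.l
  [[3],[9,2],[11],[7],[12,6],[0]]) (.l [[9,3],[2],[12],[7],[11],[6]]))) (.n 2 (.l
  [[11,0],[9],[2],[4],[1],[12,6]]) (.l [[11,0],[9],[2],[4],[1],[12]]))) (.n 2 (.n 9 (.l
  [[9,1],[11],[2],[5],[0],[12,6]]) (.l [[9,0],[12,11],[2],[4],[1],[6]])) (.n 10 (.l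
  [[10,1],[11],[2],[5],[0],[12]]) (.l [[11,1],[10,2],[12],[5],[0],[6]])))) (.n 8 (.n 2 (.n 9 (.l
  [[1],[8,2],[9],[5],[12,6],[0]]) (.l [[1],[9],[8,2],[5],[12],[0]])) (.n 11 (.l
  [[8,1],[2],[12],[5],[11],[6]]) (.l [[11],[12],[2],[0],[1],[6]]))) (.n 2 (.n 11 (.l
  [[1],[8],[11,2],[5],[12],[0]]) (.l [[8,1],[12,11],[2],[5],[0],[6]])) (.l
  [[8],[12],[2],[0],[1],[6]])))) (.n 1 (.n 9 (.n 2 (.n 11 (.l [[0],[11,2],[9],[4],[12,6],[1]])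
  (.l [[0],[11],[9,2],[4],[12],[1]])) (.n 8 (.l [[9,0],[2],[12],[4],[8],[6]]) (.l
  [[8],[12],[2],[1],[0],[6]]))) (.n 2 (.n 10 (.l [[0],[9],[10,2],[4],[12],[1]]) (.l
  [[9,0],[12,10],[2],[4],[1],[6]])) (.l [[9],[12],[2],[1],[0],[6]]))) (.n 10 (.n 2 (.n 9 (.l
  [[0],[10,1],[9],[4],[12],[2]]) (.l [[0],[9,1],[10],[4],[12],[2]])) (.l
  [[10,0],[12],[2],[4],[1],[6]])) (.n 2 (.n 8 (.l [[1],[10,2],[12],[5],[8],[6]]) (.l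
  [[10,0],[12,8],[2],[4],[1],[6]])) (.l [[10,0],[12],[2],[4],[1],[6]])))))) (.n 2 (.n 0 (.n 11
  (.n 8 (.n 9 (.n 6 (.n 10 (.n 3 (.n 1 .o .o) (.n 1 (.l [[3],[11,1],[10],[7],[12,5],[0]]) (.l
  [[10,3],[1],[12],[7],[9],[5]]))) (.n 1 (.l [[9,0],[10],[1],[4],[2],[12,5]]) (.l
  [[9,2],[1],[10],[6],[11],[12]]))) (.n 10 (.n 1 (.n 3 (.l [[9,3],[10,1],[2],[7],[0],[6,12,5]])
  (.l [[3],[10,2],[8],[7],[12,6],[1]])) (.l [[12,1],[10,2],[9],[5],[6],[0]])) (.l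
  [[9,0],[2],[10],[4],[11],[12,6]]))) (.n 1 (.l [[11,0],[9],[1],[4],[2],[12,5]]) (.l
  [[11,0],[9],[1],[4],[2],[12]]))) (.n 1 (.l [[11,0],[8],[1],[4],[2],[12,5]]) (.l
  [[11,0],[8],[1],[4],[2],[12]]))) (.n 1 (.n 8 (.l [[8,0],[11],[1],[4],[2],[12,5]]) (.l
  [[8,0],[11,1],[12],[4],[2],[5]])) (.n 9 (.l [[11,0],[1],[12],[4],[9],[5]]) (.l
  [[9,0],[11,1],[12],[4],[2],[5]])))) (.n 1 (.n 11 (.n 10 (.l [[0],[10,1],[11],[4],[12,5],[2]])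
  (.l [[0],[10],[11,1],[4],[12],[2]])) (.n 9 (.l [[0],[11],[9,2],[4],[12],[1]]) (.l
  [[11,0],[12,9],[1],[4],[2],[5]]))) (.n 10 (.n 8 (.l [[8,0],[1],[12],[4],[10],[5]]) (.l
  [[8],[12],[1],[2],[0],[5]])) (.l [[10],[12],[1],[2],[0],[5]])))) (.n 11 (.n 0 (.n 3 (.n 9 (.n 1
  (.l [[9,3],[11,2],[1],[7],[0],[12,5]]) (.l [[3,11,2],[1],[12],[7],[9],[5]])) (.l
  [[11,0],[9],[2],[4],[3],[12]])) (.n 10 (.l [[3],[11,2],[10],[7],[12],[0]]) (.l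
  [[3],[10,2],[11],[7],[12],[0]]))) (.n 1 (.n 9 (.l [[0],[9,2],[11],[4],[12],[1]]) (.l
  [[0],[9,2],[11],[4],[12],[1]])) (.l [[11,0],[12],[1],[4],[2],[5]]))) (.n 3 (.n 1 (.n 8 (.l
  [[8,3],[11],[2],[7],[1],[12]]) (.l [[11,3],[12,8],[1],[7],[2],[5]])) (.l
  [[11],[12],[1],[3],[2],[5]])) (.n 1 (.n 9 (.l [[3],[11,1],[12],[7],[9],[5]]) (.l
  [[9,3],[12,11],[1],[7],[2],[5]])) (.l [[11,3],[12],[1],[7],[2],[5]])))))) (.n 9 (.n 1 (.n 0 (.n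
  10 (.n 2 (.n 8 (.n 5 (.n 11 (.n 6 (.n 3 .o .o) (.n 3 (.l [[8,0],[11,2],[3],[4],[1],[7,12,6]])
  (.l [[12,3],[11,2],[9],[7],[6],[0]]))) (.n 3 (.l [[10,1],[11],[3],[5],[0],[12,7]]) (.l
  [[11,0],[3],[12],[4],[9],[7]]))) (.n 3 (.l [[10,0],[9,3],[1],[4],[2],[7,12,5]]) (.l
  [[12,3],[9,1],[8],[7],[5],[2]]))) (.n 3 (.l [[10,0],[8],[3],[4],[1],[12,7]]) (.l
  [[9,0],[8],[3],[4],[2],[12]]))) (.n 3 (.l [[10,0],[9,3],[2],[4],[1],[12,7]]) (.l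
  [[2,10,0],[3],[12],[4],[9],[7]]))) (.n 3 (.l [[9,0],[10],[3],[4],[1],[12,7]]) (.l
  [[9,0],[10],[3],[4],[1],[12]]))) (.n 11 (.n 3 (.l [[0],[9,3],[11],[4],[12,7],[1]]) (.l
  [[9,0],[3],[12],[4],[11],[7]])) (.n 2 (.l [[0],[11],[9,1],[4],[12],[2]]) (.l
  [[0],[11,2],[9],[4],[12],[1]])))) (.n 8 (.n 10 (.n 6 (.n 3 (.n 0 (.n 5 (.l
  [[1],[9,3],[8],[5],[12,7],[0]]) (.l [[12,1],[8,3],[10],[5],[7],[0]])) (.l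
  [[0],[10,1],[9],[4],[12],[3]])) (.n 2 (.l [[2,10,1],[3],[12],[6],[8],[7]]) (.l
  [[9,2],[3],[12],[6],[10],[7]]))) (.n 3 (.n 0 (.l [[12,1],[8,3],[10],[6],[7],[0]]) (.l
  [[0],[8,1],[10],[4],[12],[3]])) (.l [[12],[3],[10,1],[6],[7],[8]]))) (.n 0 (.l
  [[8,0],[1],[10],[4],[9],[12]]) (.n 3 (.l [[0],[9,1],[8],[4],[12],[3]]) (.l
  [[8,0],[3],[12],[4],[9],[7]])))) (.n 5 (.n 3 (.l [[1],[8,3],[12],[5],[9],[7]]) (.l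
  [[8,1],[3],[12],[5],[9],[7]])) (.n 2 (.l [[12],[1],[8],[7],[5],[9,2]]) (.l
  [[12],[1],[8,2],[7],[5],[9]]))))) (.n 10 (.n 11 (.n 8 (.n 3 (.n 0 (.l
  [[10,0],[3],[9],[4],[11],[12,7]]) (.l [[0],[9,3],[12],[4],[10],[7]])) (.n 0 (.l
  [[9,0],[3],[12],[4],[8],[7]]) (.l [[9,0],[3],[12],[4],[10],[7]]))) (.n 5 (.n 6 (.n 0 (.n 3 (.l
  [[0],[9,3],[8],[4],[11],[12]]) (.l [[9,0],[3],[12],[4],[10],[7]])) (.n 3 (.l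
  [[0],[8,3],[12],[4],[11],[7]]) (.l [[9,0],[3],[12],[4],[11],[7]]))) (.n 1 (.n 3 (.l
  [[12],[8,3],[9],[6],[7],[1]]) (.l [[12],[3],[9],[6],[7],[11,1]])) (.n 3 (.l
  [[1],[8,3],[12],[5],[11],[7]]) (.l [[12],[3],[10,1],[6],[7],[11]])))) (.n 1 (.n 2 (.l
  [[12],[9,1],[8],[7],[5],[2]]) (.l [[12],[8,1],[2],[7],[5],[10]])) (.n 2 (.l
  [[12],[1],[9],[7],[5],[10,2]]) (.l [[12],[1],[11,2],[7],[5],[10]]))))) (.n 3 (.n 0 (.l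
  [[0],[9,3],[11],[4],[10],[12]]) (.l [[0],[11,3],[12],[4],[10],[7]])) (.n 0 (.l
  [[9,0],[3],[12],[4],[10],[7]]) (.l [[9,0],[3],[12],[4],[10],[7]])))) (.n 6 (.n 5 (.n 0 (.n 3
  (.n 1 (.l [[9,0],[10,3],[12],[4],[1],[7]]) (.l [[12,1],[10,3],[9],[5],[7],[0]])) (.n 1 (.l
  [[9,0],[10,3],[12],[4],[1],[7]]) (.l [[10],[12],[3],[0],[1],[7]]))) (.n 3 (.n 2 (.l
  [[9,2],[12,10],[3],[6],[0],[7]]) (.l [[9,0],[12,10],[3],[4],[2],[7]])) (.n 1 (.l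
  [[9],[12],[3],[1],[0],[7]]) (.l [[9,0],[12],[3],[4],[1],[7]])))) (.n 1 (.n 2 (.l
  [[12],[10,1],[9],[7],[5],[2]]) (.n 3 (.l [[9,2],[10,3],[12],[6],[1],[7]]) (.l
  [[9],[12],[3],[1],[2],[7]]))) (.n 2 (.l [[12],[9,1],[10],[7],[5],[2]]) (.n 3 (.l
  [[10],[12],[1],[3],[2],[5]]) (.l [[10,2],[12],[3],[6],[1],[7]]))))) (.n 0 (.n 2 (.l
  [[12],[10,2],[9],[7],[6],[0]]) (.l [[12],[10,2],[9],[7],[6],[0]])) (.n 5 (.n 11 (.n 2 (.l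
  [[0],[10,2],[12],[4],[11],[6]]) (.l [[12],[2],[9,0],[7],[6],[11]])) (.n 3 (.n 1 (.l
  [[12],[10,3],[9],[6],[7],[1]]) (.l [[9,1],[12,11],[3],[5],[0],[7]])) (.n 2 (.l
  [[11],[12],[3],[2],[0],[7]]) (.l [[10,0],[12],[3],[4],[2],[7]])))) (.n 1 (.n 3 (.l
  [[12],[10,3],[9],[6],[7],[1]]) (.l [[9],[12],[3],[1],[0],[7]])) (.n 3 (.l
  [[9],[12],[1],[3],[0],[5]]) (.l [[9,0],[12],[1],[4],[3],[5]]))))))))) (.n 8 (.n 9 (.n 2 (.n 3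
  (.n 7 (.n 1 (.n 5 (.n 10 (.n 6 (.n 11 (.n 0 .o .o) (.n 0 (.l [[8,3],[0],[11],[7],[9],[12,4]])
  (.l [[10,1],[0],[11],[5],[8],[12]]))) (.n 0 (.l [[10,1],[9,0],[2],[5],[3],[6,12,4]]) (.l
  [[12,0],[10,2],[8],[4],[6],[3]]))) (.n 0 (.l [[8,1],[10],[0],[5],[2],[12,4]]) (.l
  [[8,1],[10],[0],[5],[2],[12]]))) (.n 0 (.l [[8,3],[9,0],[1],[7],[2],[5,12,4]]) (.l
  [[12,0],[9,1],[8],[4],[5],[3]]))) (.n 0 (.l [[9,3],[8,1],[0],[7],[2],[12,4]]) (.l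
  [[3,8,1],[0],[12],[7],[9],[4]]))) (.n 10 (.n 0 (.n 5 (.n 1 (.l
  [[9,1],[8,3],[0],[5],[2],[7,12,4]]) (.l [[1],[9,3],[8],[5],[12,7],[2]])) (.l
  [[12,4,0],[8,3],[9],[5],[7],[2]])) (.l [[12,0],[10,3],[8],[4],[7],[2]])) (.l
  [[12,10],[3],[9,2],[4],[7],[8]]))) (.n 10 (.n 6 (.n 0 (.n 7 (.l [[3],[8,0],[9],[7],[12,4],[2]])
  (.l [[12,3],[10,0],[8],[7],[4],[2]])) (.l [[3,9,2],[0],[12],[6],[10],[4]])) (.n 1 (.l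
  [[12,3],[10,2],[8],[4],[6],[1]]) (.l [[12],[2,10,1],[3],[4],[6],[9]]))) (.n 6 (.l
  [[9,2],[3],[10],[6],[8],[12]]) (.l [[12],[10,2],[3],[4],[6],[8]])))) (.n 7 (.n 6 (.n 0 (.n 3
  (.l [[2],[8,0],[9],[6],[12,4],[3]]) (.l [[3],[8,2],[9],[7],[12],[0]])) (.l
  [[8,2],[0],[12],[6],[9],[4]])) (.n 3 (.n 0 (.l [[12,2],[8,0],[9],[6],[4],[3]]) (.l
  [[8,2],[12],[0],[3],[6],[4]])) (.l [[12],[2],[9,3],[4],[6],[8]]))) (.n 3 (.n 1 (.l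
  [[12,2],[9,3],[8],[4],[7],[1]]) (.l [[12],[3,8,2],[1],[4],[7],[9]])) (.l
  [[12],[3],[9,2],[4],[7],[8]])))) (.n 1 (.n 7 (.n 0 (.n 3 (.l [[8,3],[9],[0],[7],[1],[12,4]])
  (.l [[3],[9],[8,0],[7],[12],[1]])) (.n 3 (.l [[9,3],[0],[12],[7],[8],[4]]) (.l
  [[9],[12],[0],[1],[3],[4]]))) (.n 0 (.n 11 (.l [[12,9],[0],[8,1],[7],[4],[11]]) (.l
  [[12],[11,0],[9],[7],[4],[1]])) (.l [[12],[0],[9],[7],[4],[8,1]]))) (.n 3 (.n 0 (.n 5 (.l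
  [[1],[9],[8,0],[5],[12],[3]]) (.l [[9],[12],[1],[3],[4,0],[5]])) (.l
  [[9],[12],[0],[3],[1],[4]])) (.n 5 (.n 0 (.l [[1],[9,0],[12],[5],[8],[4]]) (.l
  [[9,1],[0],[12],[5],[8],[4]])) (.l [[12],[1],[9,3],[4],[5],[8]]))))) (.n 2 (.n 9 (.n 10 (.n 11
  (.n 6 (.n 0 (.l [[9,2],[0],[8],[6],[11],[12,4]]) (.l [[9,2],[0],[8],[6],[11],[12]])) (.n 3 (.l
  [[12,8],[2],[11,3],[4],[6],[10]]) (.l [[12],[8,2],[3],[4],[6],[9]]))) (.n 3 (.n 6 (.l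
  [[2],[8,3],[11],[6],[9],[12]]) (.l [[12],[8,2],[11],[4],[6],[3]])) (.n 6 (.l
  [[10,2],[3],[8],[6],[9],[12]]) (.l [[12],[11,2],[3],[4],[6],[10]])))) (.n 7 (.n 3 (.l
  [[3],[8,2],[10],[7],[9],[12]]) (.n 6 (.l [[2],[10,3],[8],[6],[9],[12]]) (.l
  [[3],[8,2],[12],[7],[9],[6]]))) (.n 3 (.l [[12],[10,3],[8],[4],[7],[2]]) (.l
  [[12],[3],[10],[4],[7],[9,2]])))) (.n 10 (.n 3 (.n 7 (.l [[3],[9,2],[8],[7],[10],[12]]) (.l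
  [[12],[9,3],[8],[4],[7],[2]])) (.n 6 (.l [[2],[9,3],[8],[6],[10],[12]]) (.l
  [[12],[9,2],[3],[4],[6],[10]]))) (.n 6 (.n 11 (.n 0 (.l [[2],[8,0],[10],[6],[11],[12]]) (.l
  [[9,2],[0],[12],[6],[11],[4]])) (.n 0 (.n 1 (.l [[9,2],[11,0],[12],[6],[1],[4]]) (.l
  [[10,2],[12,11],[0],[6],[1],[4]])) (.n 1 (.l [[9,2],[12,8],[0],[6],[1],[4]]) (.l
  [[8],[12],[0],[2],[1],[4]])))) (.n 3 (.l [[12],[9,2],[8],[4],[6],[3]]) (.n 1 (.l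
  [[12],[10,2],[8],[4],[6],[1]]) (.n 7 (.l [[8,3],[12,9],[2],[7],[1],[6]]) (.l
  [[9],[12],[3],[2],[1],[7]]))))))) (.n 0 (.n 11 (.n 6 (.l [[2],[8,0],[12],[6],[11],[4]]) (.n 3
  (.l [[12],[2],[8],[4],[6],[11,3]]) (.l [[8],[12],[2],[0],[3],[6]]))) (.n 1 (.n 6 (.l
  [[8,2],[11,0],[12],[6],[1],[4]]) (.l [[8],[12],[2],[1],[4,0],[6]])) (.n 5 (.l
  [[11,1],[12,8],[0],[5],[2],[4]]) (.l [[8],[12],[1],[0],[2],[5]])))) (.n 1 (.l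
  [[8],[12],[0],[1],[2],[4]]) (.n 6 (.l [[8,2],[12],[0],[6],[1],[4]]) (.n 5 (.l
  [[8,1],[12],[2],[5],[0],[6]]) (.n 3 (.l [[8],[12],[1],[3],[0],[5]]) (.n 11 (.l
  [[12],[2],[8,3],[5],[6],[11]]) (.n 10 (.l [[12],[0],[8,2],[5],[4],[10]]) (.n 9 (.l
  [[12],[2],[8,1],[4],[6],[9]]) (.n 7 (.l [[11,3],[12],[2],[7],[0],[6]]) .o))))))))))))

/-- the decision tree, `κ = true` -/
def dT1 : DT :=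
  (.n 5 (.n 4 (.n 6 (.n 7 (.n 11 (.n 8 (.n 10 (.n 9 (.n 2 (.n 1 (.n 0 (.n 3 .o .o) (.n 3 .o (.l
  [[3],[11,0],[10],[7],[12],[1]]))) (.n 3 (.n 0 .o (.l [[0],[9,1],[8],[4],[12],[3]])) (.l
  [[1],[9,3],[10],[5],[12],[2]]))) (.n 1 (.n 0 (.n 3 .o (.l [[2],[8,3],[9],[6],[12],[1]])) (.l
  [[0],[9,2],[11],[4],[12],[1]])) (.n 0 (.l [[1],[9,2],[8],[5],[12],[0]]) (.n 3 (.l
  [[0],[11,2],[8],[4],[12],[3]]) .o)))) (.n 2 (.n 3 (.n 0 (.n 1 .o (.l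
  [[1],[9],[11],[5],[12],[3]])) (.l [[0],[9],[8],[4],[12],[3]])) (.l
  [[3],[9],[10],[7],[12],[2]])) (.n 1 (.l [[2],[9],[10],[6],[12],[1]]) (.n 0 (.l
  [[1],[9],[11],[5],[12],[0]]) (.n 3 (.l [[2],[9],[8],[6],[12],[3]]) .o))))) (.n 1 (.n 2 (.n 0
  (.n 3 (.n 9 .o .o) (.l [[3],[10],[11],[7],[12],[1]])) (.l [[0],[10],[8],[4],[12],[1]])) (.l
  [[2],[10],[8],[6],[12],[1]])) (.n 3 (.l [[1],[10],[8],[5],[12],[3]]) (.n 0 (.l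
  [[1],[10],[11],[5],[12],[0]]) (.n 2 (.l [[1],[10],[8],[5],[12],[2]]) (.n 9 .o .o)))))) (.n 3
  (.n 1 (.n 0 (.n 2 (.n 9 (.n 10 .o .o) (.n 10 .o .o)) (.l [[2],[8],[11],[6],[12],[3]])) (.l
  [[0],[8],[11],[4],[12],[1]])) (.l [[1],[8],[11],[5],[12],[3]])) (.n 2 (.l
  [[3],[8],[11],[7],[12],[2]]) (.n 0 (.l [[2],[8],[11],[6],[12],[0]]) (.n 1 (.l
  [[0],[8],[11],[4],[12],[1]]) (.n 10 (.n 9 .o .o) (.n 9 .o .o))))))) (.n 8 (.n 0 (.n 2 (.n 3 (.n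
  1 (.n 10 (.n 9 .o .o) (.n 9 .o .o)) (.l [[1],[11],[8],[5],[12],[3]])) (.l
  [[3],[11],[8],[7],[12],[2]])) (.l [[2],[11],[8],[6],[12],[0]])) (.n 1 (.l
  [[0],[11],[8],[4],[12],[1]]) (.n 3 (.l [[1],[11],[8],[5],[12],[3]]) (.n 2 (.l
  [[3],[11],[8],[7],[12],[2]]) (.n 9 (.n 10 .o .o) (.n 10 .o .o)))))) (.n 10 (.n 1 (.n 0 (.n 2
  (.n 3 (.n 9 .o .o) (.l [[3],[8],[10],[7],[12],[0]])) (.l [[2],[11],[10],[6],[12],[0]])) (.l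
  [[0],[8],[10],[4],[12],[1]])) (.n 0 (.l [[1],[11],[10],[5],[12],[0]]) (.n 3 (.l
  [[1],[11],[10],[5],[12],[3]]) (.n 2 (.l [[1],[8],[10],[5],[12],[2]]) (.n 9 .o .o))))) (.n 9 (.n
  1 (.n 3 (.n 0 (.n 2 .o (.l [[2],[11],[9],[6],[12],[3]])) (.l [[0],[11],[9],[4],[12],[1]])) (.l
  [[3],[11],[9],[7],[12],[1]])) (.n 0 (.l [[1],[10],[9],[5],[12],[0]]) (.n 3 (.l
  [[1],[11],[9],[5],[12],[3]]) (.n 2 (.l [[0],[8],[9],[4],[12],[2]]) .o)))) (.n 3 (.n 2 (.n 1 (.n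
  0 .o .o) (.n 0 .o .o)) (.n 0 (.n 1 .o .o) (.n 1 .o .o))) (.n 0 (.n 2 (.n 1 .o .o) (.n 1 .o .o))
  (.n 2 (.n 1 .o .o) (.n 1 .o .o)))))))) (.n 0 (.n 8 (.n 10 (.n 2 (.n 1 (.n 9 (.n 11 (.n 3 .o .o)
  (.n 3 (.l [[8,1],[11],[3],[5],[2],[12,7]]) (.l [[11,0],[3],[12],[4],[10],[7]]))) (.n 3 (.l
  [[10,1],[9],[3],[5],[2],[12,7]]) (.l [[9,2],[3],[12],[6],[8],[7]]))) (.n 3 (.l
  [[1],[10,3],[8],[5],[12,7],[0]]) (.l [[10,1],[3],[12],[5],[8],[7]]))) (.n 3 (.l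
  [[2],[10,3],[8],[6],[12,7],[0]]) (.l [[10,2],[3],[12],[6],[8],[7]]))) (.n 3 (.n 2 (.l
  [[8,2],[10],[3],[6],[0],[12,7]]) (.l [[2],[10],[8],[6],[12],[0]])) (.l
  [[10,0],[3],[12],[4],[8],[7]]))) (.n 1 (.n 11 (.n 3 (.l [[11,1],[8],[3],[5],[0],[12,7]]) (.l
  [[8,0],[3],[12],[4],[11],[7]])) (.n 3 (.l [[8,1],[12,11],[3],[5],[0],[7]]) (.l
  [[11,1],[12,8],[3],[5],[0],[7]]))) (.n 11 (.l [[1],[8],[11],[5],[12],[0]]) (.n 3 (.l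
  [[12,1],[8,3],[11],[5],[7],[0]]) (.l [[11],[12],[3],[0],[1],[7]]))))) (.n 2 (.n 1 (.n 8 (.n 11
  (.n 3 (.l [[0],[8,3],[11],[4],[12,7],[1]]) (.l [[8,0],[3],[12],[4],[11],[7]])) (.l
  [[0],[11],[8],[4],[12],[2]])) (.n 3 (.n 9 (.l [[0],[8],[9],[4],[12],[2]]) (.l
  [[9,2],[12,8],[3],[6],[0],[7]])) (.l [[8],[12],[3],[1],[0],[7]]))) (.n 10 (.n 8 (.l
  [[0],[8,1],[10],[4],[12],[2]]) (.l [[1],[8],[10],[5],[12],[2]])) (.n 3 (.n 9 (.l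
  [[0],[10],[9],[4],[12],[3]]) (.l [[10,0],[12,9],[3],[4],[1],[7]])) (.l
  [[10],[12],[3],[2],[0],[7]])))) (.n 9 (.n 3 (.n 8 (.l [[2],[8,0],[9],[6],[12],[3]]) (.l
  [[0],[8],[9],[4],[12],[3]])) (.l [[9,0],[12],[3],[4],[2],[7]])) (.n 3 (.n 11 (.l
  [[2],[9],[11],[6],[12],[3]]) (.l [[11,2],[12,9],[3],[6],[0],[7]])) (.l
  [[9,0],[12],[3],[4],[2],[7]])))))) (.n 1 (.n 0 (.n 9 (.n 8 (.n 11 (.n 3 (.n 7 (.n 10 (.n 2 .o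
  .o) (.n 2 (.l [[8,1],[10],[2],[5],[0],[12,6]]) (.l [[10,0],[2],[12],[4],[11],[6]]))) (.n 2 (.l
  [[11,1],[9,3],[2],[5],[0],[7,12,6]]) (.l [[12,2],[11,3],[9],[6],[7],[0]]))) (.n 2 (.l
  [[8,1],[9,3],[2],[5],[0],[12,6]]) (.l [[3,9,1],[2],[12],[5],[11],[6]]))) (.n 2 (.l
  [[8,0],[11],[2],[4],[1],[12,6]]) (.l [[8,0],[11],[2],[4],[1],[12]]))) (.n 2 (.l
  [[9,1],[8],[2],[5],[0],[12,6]]) (.l [[9,0],[8],[2],[4],[1],[12]]))) (.n 11 (.n 2 (.l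
  [[11,1],[9],[2],[5],[0],[12,6]]) (.l [[9,1],[2],[12],[5],[11],[6]])) (.n 2 (.l
  [[9,0],[11,2],[12],[4],[1],[6]]) (.l [[11,1],[9,2],[12],[5],[0],[6]])))) (.n 3 (.n 9 (.n 8 (.n
  2 (.l [[0],[8,2],[9],[4],[12,6],[1]]) (.l [[8,0],[2],[12],[4],[9],[6]])) (.l
  [[0],[8],[9],[4],[12],[3]])) (.n 11 (.l [[0],[9],[11],[4],[12],[1]]) (.n 2 (.l
  [[12,0],[11,2],[9],[4],[6],[3]]) (.l [[11],[12],[2],[1],[0],[6]])))) (.n 7 (.n 11 (.n 8 (.l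
  [[0],[8,3],[11],[4],[12],[1]]) (.l [[3],[8],[11],[7],[12],[1]])) (.n 10 (.l
  [[0],[11],[10],[4],[12],[1]]) (.n 2 (.l [[11,0],[12,10],[2],[4],[3],[6]]) (.l
  [[10],[12],[2],[1],[0],[6]])))) (.n 10 (.n 2 (.l [[10,0],[12],[3],[1],[6,2],[7]]) (.l
  [[10,3],[12],[2],[1],[0],[6]])) (.l [[10],[12],[3],[1],[0],[7]]))))) (.n 3 (.n 0 (.n 8 (.n 11
  (.n 2 (.l [[1],[8,2],[11],[5],[12,6],[3]]) (.l [[11,1],[2],[12],[5],[8],[6]])) (.l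
  [[1],[11],[8],[5],[12],[3]])) (.n 9 (.l [[1],[8],[9],[5],[12],[0]]) (.n 2 (.l
  [[9,1],[8,2],[12],[5],[0],[6]]) (.l [[9],[12],[2],[3],[1],[6]])))) (.n 9 (.n 10 (.l
  [[0],[10,1],[9],[4],[12],[3]]) (.l [[1],[10],[9],[5],[12],[3]])) (.n 10 (.l
  [[0],[9],[10],[4],[12],[3]]) (.n 2 (.l [[12,0],[9,2],[10],[4],[6],[3]]) (.l
  [[9],[12],[2],[3],[0],[6]]))))) (.n 8 (.n 2 (.n 9 (.l [[1],[9,3],[8],[5],[12],[2]]) (.l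
  [[1],[9],[8],[5],[12],[2]])) (.l [[8,1],[12],[2],[5],[3],[6]])) (.n 2 (.n 10 (.l
  [[1],[8],[10],[5],[12],[2]]) (.l [[10,1],[12,8],[2],[5],[3],[6]])) (.l
  [[8,1],[12],[2],[5],[3],[6]])))))) (.n 2 (.n 10 (.n 8 (.n 9 (.n 11 (.n 6 (.n 1 (.n 7 (.n 3 (.n
  0 .o .o) (.n 0 (.l [[3],[9,0],[8],[7],[12,4],[2]]) (.l [[10,3],[0],[12],[7],[11],[4]]))) (.n 3
  (.n 0 (.l [[9,2],[11,0],[3],[6],[1],[7,12,4]]) (.l [[12,0],[8,3],[9],[4],[7],[2]])) (.n 0 (.l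
  [[12,3],[9,0],[8],[7],[4],[2]]) (.l [[8,3],[12],[0],[1],[7],[4]])))) (.n 0 (.l
  [[1],[10,0],[9],[5],[12,4],[2]]) (.l [[9,1],[0],[12],[5],[11],[4]]))) (.n 7 (.n 1 (.n 0 (.n 3
  (.l [[8,1],[11,2],[0],[5],[3],[6,12,4]]) (.l [[3],[10,2],[9],[7],[12,6],[1]])) (.l
  [[12,0],[11,2],[9],[4],[6],[1]])) (.n 3 (.l [[1],[10,2],[8],[5],[12,6],[3]]) (.l
  [[3],[10,1],[9],[7],[12],[2]]))) (.n 3 (.n 1 (.l [[12,6,2],[9,3],[8],[4],[7],[1]]) (.l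
  [[1],[8,3],[9],[5],[12,7],[2]])) (.l [[12],[3],[11,6,2],[4],[7],[8]])))) (.n 1 (.n 0 (.l
  [[8,1],[11],[0],[5],[2],[12,4]]) (.l [[9,1],[11],[0],[5],[2],[12]])) (.l
  [[1],[11],[9],[5],[12],[2]]))) (.n 1 (.n 0 (.l [[10,1],[9],[0],[5],[2],[12,4]]) (.l
  [[10,1],[9],[0],[5],[2],[12]])) (.l [[1],[9],[8],[5],[12],[2]]))) (.n 1 (.n 0 (.l
  [[10,1],[8],[0],[5],[2],[12,4]]) (.l [[8,1],[0],[12],[5],[10],[4]])) (.l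
  [[1],[8],[10],[5],[12],[2]]))) (.n 7 (.n 1 (.n 0 (.n 11 (.l [[11,1],[10],[0],[5],[2],[12,4]])
  (.l [[11,1],[10,0],[12],[5],[2],[4]])) (.n 9 (.l [[10,1],[0],[12],[5],[9],[4]]) (.l
  [[9,1],[10,0],[12],[5],[2],[4]]))) (.n 11 (.l [[1],[10],[11],[5],[12],[2]]) (.n 0 (.l
  [[11,1],[12,10],[0],[5],[2],[4]]) (.l [[11],[12],[0],[2],[1],[4]])))) (.n 0 (.n 3 (.n 8 (.n 1
  (.l [[8,1],[10],[3],[5],[0],[12,7]]) (.l [[1],[10],[8],[5],[12],[0]])) (.l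
  [[12],[8,3],[10],[4],[7],[2]])) (.l [[10],[12],[3],[2],[4,0],[7]])) (.n 3 (.l
  [[10],[12],[0],[2],[7,3],[4]]) (.l [[10],[12],[3],[2],[0],[7]]))))) (.n 0 (.n 10 (.n 8 (.n 1
  (.n 3 (.l [[8,1],[10,0],[2],[5],[3],[12,4]]) (.l [[10,1],[8,2],[3],[5],[0],[12]])) (.l
  [[1],[10,2],[8],[5],[12],[0]])) (.n 1 (.l [[10,1],[8],[2],[5],[0],[12]]) (.l
  [[1],[8],[10],[5],[12],[0]]))) (.n 8 (.n 1 (.l [[8,1],[10],[2],[5],[0],[12]]) (.l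
  [[1],[10],[8],[5],[12],[0]])) (.n 1 (.l [[10,1],[12,8],[0],[5],[2],[4]]) (.l
  [[8,1],[12,10],[0],[5],[2],[4]])))) (.n 11 (.n 1 (.n 8 (.l [[2,11,1],[0],[12],[5],[8],[4]]) (.l
  [[8],[12],[0],[1],[2],[4]])) (.l [[11,1],[12],[0],[5],[2],[4]])) (.n 1 (.l
  [[11],[12],[0],[1],[2],[4]]) (.l [[11,1],[12],[0],[5],[2],[4]])))))) (.n 8 (.n 0 (.n 7 (.n 10
  (.n 2 (.n 4 (.n 9 (.n 6 (.n 11 (.n 3 (.n 1 .o .o) (.n 1 (.l [[3],[9,1],[11],[7],[12,5],[0]])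
  (.l [[10,3],[1],[12],[7],[11],[5]]))) (.n 1 (.l [[8,0],[11],[1],[4],[2],[12,5]]) (.l
  [[10,0],[11],[1],[4],[2],[12]]))) (.n 3 (.n 1 (.l [[9,3],[8,1],[2],[7],[0],[6,12,5]]) (.l
  [[12,1],[8,2],[9],[5],[6],[3]])) (.l [[3],[9,2],[10],[7],[12,6],[0]]))) (.n 1 (.l
  [[8,0],[9],[1],[4],[2],[12,5]]) (.l [[9,0],[1],[12],[4],[8],[5]]))) (.n 3 (.n 1 (.l
  [[8,3],[10,1],[0],[7],[2],[5,12,4]]) (.l [[12,1],[8,0],[10],[5],[4],[3]])) (.l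
  [[3],[8,0],[10],[7],[12,4],[2]]))) (.n 3 (.n 1 (.l [[8,3],[10,1],[2],[7],[0],[12,5]]) (.l
  [[3,10,2],[1],[12],[7],[8],[5]])) (.l [[3],[10,2],[8],[7],[12],[0]]))) (.n 3 (.n 1 (.l
  [[8,3],[10],[1],[7],[0],[12,5]]) (.l [[8,3],[10],[1],[7],[0],[12]])) (.l
  [[3],[10],[8],[7],[12],[0]]))) (.n 1 (.n 10 (.n 2 (.n 6 (.n 3 (.l
  [[10,2],[8,3],[1],[6],[0],[7,12,5]]) (.l [[12,3],[10,1],[8],[7],[5],[2]])) (.l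
  [[12,6,2],[10,1],[8],[7],[5],[0]])) (.l [[12,2],[10,1],[8],[7],[5],[0]])) (.n 11 (.n 4 (.n 2
  (.l [[8,0],[10],[1],[4],[2],[12,5]]) (.l [[8,0],[10],[2],[4],[1],[12]])) (.l
  [[12],[10,0],[5,1],[7],[4],[11]])) (.l [[12],[11,1],[10],[7],[5],[8]]))) (.n 9 (.n 3 (.l
  [[12,1],[8,3],[9],[5],[7],[0]]) (.l [[9,1],[12],[3],[0],[5],[7]])) (.l
  [[12],[1],[9],[7],[5],[8]])))) (.n 4 (.n 9 (.n 1 (.n 2 (.l [[0],[9,1],[8],[4],[12,5],[2]]) (.l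
  [[0],[8,2],[9],[4],[12],[1]])) (.l [[8,0],[1],[12],[4],[9],[5]])) (.n 1 (.l
  [[0],[9],[8],[4],[12],[1]]) (.l [[9,0],[1],[12],[4],[8],[5]]))) (.n 10 (.n 2 (.n 1 (.l
  [[12,0],[10,1],[8],[4],[5],[2]]) (.l [[8,0],[12],[1],[2],[4],[5]])) (.l
  [[12],[0],[8,2],[5],[4],[10]])) (.l [[12],[0],[10],[5],[4],[8]])))) (.n 4 (.n 9 (.n 2 (.n 0 (.n
  1 (.l [[9,0],[8],[1],[4],[2],[12,5]]) (.l [[8,0],[1],[12],[4],[9],[5]])) (.l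
  [[0],[8],[9],[4],[12],[2]])) (.n 6 (.n 1 (.l [[2],[8],[9],[6],[12],[1]]) (.l
  [[8,2],[1],[12],[6],[9],[5]])) (.l [[12],[2],[8],[5],[6],[9]]))) (.n 1 (.n 0 (.n 2 (.l
  [[8,0],[12,9],[1],[4],[2],[5]]) (.l [[8,0],[12,9],[1],[4],[2],[5]])) (.n 2 (.l
  [[8,0],[9,1],[12],[4],[2],[5]]) (.l [[8,0],[12,9],[1],[4],[2],[5]]))) (.n 7 (.n 3 (.n 2 (.l
  [[8,3],[12,9],[1],[7],[2],[5]]) (.l [[8],[12],[1],[3],[2],[5]])) (.n 0 (.l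
  [[8],[12],[1],[0],[3],[5]]) (.l [[9,3],[12],[1],[7],[0],[5]]))) (.n 2 (.l
  [[12],[8,1],[9],[7],[5],[2]]) (.n 0 (.l [[9],[12],[1],[0],[2],[5]]) (.l
  [[9,0],[12],[1],[4],[2],[5]])))))) (.n 7 (.n 6 (.n 1 (.n 3 (.n 11 (.n 2 (.l
  [[11,3],[8],[1],[7],[2],[12,5]]) (.l [[2],[8],[11],[6],[12],[3]])) (.l
  [[12],[8,1],[11],[4],[5],[3]])) (.n 10 (.l [[3],[8],[10],[7],[12],[1]]) (.n 2 (.l
  [[12],[8,1],[10],[4],[5],[2]]) (.l [[8,3],[12,10],[1],[7],[2],[5]])))) (.n 11 (.l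
  [[12],[1],[8],[4],[5],[11]]) (.n 3 (.l [[12],[11,1],[8],[4],[5],[3]]) (.n 0 (.l
  [[11],[12],[1],[0],[3],[5]]) (.l [[11,3],[12],[1],[7],[0],[5]]))))) (.n 9 (.n 2 (.n 1 (.l
  [[12],[8,2],[5,1],[4],[6],[9]]) (.l [[12],[1],[8],[6],[5],[9]])) (.l
  [[12],[2],[8],[4],[6],[9]])) (.n 2 (.n 1 (.l [[12],[9,1],[8],[4],[5],[2]]) (.l
  [[12],[9,1],[8],[4],[5],[2]])) (.n 11 (.l [[12],[2],[8],[4],[6],[11]]) (.n 10 (.l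
  [[12],[2],[8],[4],[6],[10]]) (.n 3 (.l [[12],[10,2],[11],[5],[6],[3]]) (.n 1 (.l
  [[8],[12],[2],[1],[3],[6]]) (.l [[8,3],[12],[2],[7],[1],[6]])))))))) (.n 10 (.n 0 (.n 1 (.l
  [[12],[8,0],[5,1],[7],[4],[10]]) (.l [[12],[1],[8],[4],[5],[10]])) (.l
  [[12],[0],[8],[5],[4],[10]])) (.n 3 (.n 0 (.l [[12],[10,0],[8],[5],[4],[3]]) (.l
  [[12],[10,0],[8],[5],[4],[3]])) (.n 2 (.l [[12],[10,3],[8],[5],[7],[2]]) (.n 0 (.l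
  [[8],[12],[3],[0],[2],[7]]) (.n 1 (.l [[8],[12],[0],[1],[3],[4]]) (.n 6 (.l
  [[10,2],[12],[0],[6],[1],[4]]) (.n 11 (.l [[12],[2],[8],[4],[6],[11]]) (.n 9 (.l
  [[12],[3],[8],[4],[7],[9]]) .o))))))))))))

theorem tabT0 : dT0.chk 6 r3 (gs false) (ty false) 0 0 = true := by
  decide +kernel

theorem tabT1 : dT1.chk 6 r3 (gs true) (ty true) 0 0 = true := by
  decide +kernel

theorem Gam.ty {V : Type} {G : SimpleGraph V} {κ : Bool} {f : ℕ → V} (h : Gam G κ f)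
    (hG : SPF G Set.univ 6 r3) {K : Set V} {s : ℕ} (hK : Ob G f K s) : s ∈ ty κ := by
  cases κ with
  | false => exact dT0.use tabT0 hG hK.tr.1 rfl (h.sp1 hK)
  | true => exact dT1.use tabT1 hG hK.tr.1 rfl (h.sp1 hK)

end Pool.Agent.MPd439b2.X3.H3G
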